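import Mathlib

set_option autoImplicit false

/-!
Counting lemma for filtered differential groups: a group `U` with a finite grading, a degree
preserving differential `δ` with finite cohomology, a total differential `D = δ + d` where `d`
raises the degree by one, and a map `(U, δ) → (U, D)` injective on cohomology.  Then every
`δ`-cocycle of degree zero is the component of degree zero of a `D`-cocycle.
-/

namespace Pool.Agent.DBX.DIB

section Count

variable {U : Type*} [AddCommGroup U]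

/-- elements without components of degree less than `i` -/
def flt (pr : ℕ → U →+ U) (i : ℕ) : AddSubgroup U where
  carrier := {x | ∀ j < i, pr j x = 0}
  zero_mem' := fun j _ => map_zero _
  add_mem' := fun {x y} hx hy j hj => by rw [map_add, hx j hj, hy j hj, add_zero]
  neg_mem' := fun {x} hx j hj => by rw [map_neg, hx j hj, neg_zero]

/-- homogeneous elements -/
def hom (pr : ℕ → U →+ U) (i : ℕ) : AddSubgroup U where
  carrier := {x | pr i x = x}
  zero_mem' := map_zero _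
  add_mem' := fun {x y} hx hy => by
    show pr i (x + y) = x + y
    rw [map_add, hx, hy]
  neg_mem' := fun {x} hx => by
    show pr i (-x) = -x
    rw [map_neg, hx]

/-- order of the cohomology of a subgroup `F` -/
noncomputable def hh (D : U →+ U) (F : AddSubgroup U) : ℕ := (F.map D).relIndex (F ⊓ D.ker)

variable (pr : ℕ → U →+ U) (δ d : U →+ U)

/-- the structure of a graded group with `δ` of degree zero and `d` of degree one -/
structure Gr (N : ℕ) : Prop where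
  prpr : ∀ i j x, pr i (pr j x) = if i = j then pr i x else 0
  sum : ∀ x, ∑ i ∈ Finset.range (N + 1), pr i x = x
  prδ : ∀ i x, pr i (δ x) = δ (pr i x)
  prd : ∀ i x, pr (i + 1) (d x) = d (pr i x)
  prd0 : ∀ x, pr 0 (d x) = 0
  DD : ∀ x, (δ + d) ((δ + d) x) = 0

variable {pr δ d} {N : ℕ} (G : Gr pr δ d N)

include G

theorem Gr.δδ (x : U) : δ (δ x) = 0 := by
  rw [← G.sum (δ (δ x))]
  apply Finset.sum_eq_zero
  intro i _
  rw [G.prδ, G.prδ]
  have h := congrArg (pr i) (G.DD (pr i x))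
  simp only [AddMonoidHom.add_apply, map_add, map_zero] at h
  rw [G.prδ, G.prδ, G.prpr, if_pos rfl] at h
  have h2 : pr i (δ (d (pr i x))) = 0 := by
    rw [G.prδ, ← G.prd, G.prpr, if_neg (by omega), map_zero]
  have h3 : pr i (d (δ (pr i x))) = 0 := by
    rw [← G.prδ, ← G.prd, G.prpr, if_neg (by omega)]
  have h4 : pr i (d (d (pr i x))) = 0 := by
    rw [← G.prd, ← G.prd, G.prpr, if_neg (by omega)]
  rw [h2, h3, h4] at h
  simpa using h

theorem Gr.gr0 : Gr pr δ (0 : U →+ U) N where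
  prpr := G.prpr
  sum := G.sum
  prδ := G.prδ
  prd := fun i x => by simp
  prd0 := fun x => by simp
  DD := fun x => by simpa using G.δδ x

theorem Gr.flt_D {i : ℕ} {x : U} (hx : x ∈ flt pr i) : (δ + d) x ∈ flt pr i := by
  intro j hj
  rw [AddMonoidHom.add_apply, map_add, G.prδ, hx j hj, map_zero, zero_add]
  rcases j with _ | j
  · exact G.prd0 x
  · rw [G.prd, hx j (by omega), map_zero]

theorem Gr.pr_D {i : ℕ} {x : U} (hx : x ∈ flt pr i) : pr i ((δ + d) x) = δ (pr i x) := by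
  rw [AddMonoidHom.add_apply, map_add, G.prδ]
  rcases i with _ | i
  · rw [G.prd0, add_zero]
  · rw [G.prd, hx i (by omega), map_zero, add_zero]

omit G in
theorem Gr.flt_succ {i : ℕ} {x : U} (hx : x ∈ flt pr i) (h : pr i x = 0) : x ∈ flt pr (i + 1) := by
  intro j hj
  rcases Nat.lt_succ_iff_lt_or_eq.mp hj with h1 | h1
  · exact hx j h1
  · rw [h1]; exact h

omit G in
theorem Gr.flt_mono {i : ℕ} : flt pr (i + 1) ≤ flt pr i := fun _ hx j hj => hx j (by omega)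

theorem Gr.hom_flt {i : ℕ} {x : U} (hx : x ∈ hom pr i) : x ∈ flt pr i := by
  intro j hj
  have : pr i x = x := hx
  rw [← this, G.prpr, if_neg (by omega)]

theorem Gr.pr_hom (i : ℕ) (x : U) : pr i x ∈ hom pr i := by
  show pr i (pr i x) = pr i x
  rw [G.prpr, if_pos rfl]

/-- the fundamental equality -/
theorem Gr.hh_eq (i : ℕ) : hh (δ + d) (flt pr i) =
    (((flt pr i).map (δ + d)).relIndex (flt pr (i + 1) ⊓ (δ + d).ker)) *
      ((hom pr i).map δ).relIndex ((flt pr i ⊓ (δ + d).ker).map (pr i)) := by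
  set D := δ + d with hD
  set Z := flt pr i ⊓ D.ker with hZ
  set Z' := flt pr (i + 1) ⊓ D.ker with hZ'
  set B := (flt pr i).map D with hB
  have hBZ : B ≤ Z := by
    rintro _ ⟨x, hx, rfl⟩
    exact ⟨G.flt_D hx, G.DD x⟩
  have hZZ : Z' ≤ Z := fun x hx => ⟨Gr.flt_mono hx.1, hx.2⟩
  have h1 : B.relIndex (Z' ⊔ B) * (Z' ⊔ B).relIndex Z = B.relIndex Z :=
    AddSubgroup.relIndex_mul_relIndex _ _ _ le_sup_right (sup_le hZZ hBZ)
  rw [AddSubgroup.relIndex_sup_right] at h1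
  unfold hh
  rw [← h1]
  congr 1
  rw [← AddSubgroup.relIndex_comap, ← AddSubgroup.inf_relIndex_right,
    ← AddSubgroup.inf_relIndex_right (((hom pr i).map δ).comap (pr i))]
  congr 1
  ext x
  constructor
  · rintro ⟨hx1, hx2⟩
    refine ⟨?_, hx2⟩
    obtain ⟨y, hy, z, hz, rfl⟩ := AddSubgroup.mem_sup.mp hx1
    obtain ⟨w, hw, rfl⟩ := hz
    refine ⟨pr i w, G.pr_hom i w, ?_⟩
    have e1 : pr i y = 0 := hy.1 i (by omega)
    rw [map_add, e1, zero_add]
    exact (G.pr_D hw).symm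
  · rintro ⟨⟨w, hw, hw2⟩, hx2⟩
    refine ⟨?_, hx2⟩
    have hw' : w ∈ flt pr i := G.hom_flt hw
    have hww : pr i w = w := hw
    have e : x = (x - D w) + D w := by abel
    rw [e]
    refine AddSubgroup.add_mem_sup ⟨?_, ?_⟩ ⟨w, hw', rfl⟩
    · apply Gr.flt_succ
      · exact (flt pr i).sub_mem hx2.1 (G.flt_D hw')
      · rw [map_sub, G.pr_D hw', hww, hw2, sub_self]
    · show D (x - D w) = 0
      rw [map_sub, hx2.2, G.DD, sub_zero]

theorem Gr.hh_le (i : ℕ) (h : hh (δ + d) (flt pr (i + 1)) ≠ 0) :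
    hh (δ + d) (flt pr i) ≤ hh (δ + d) (flt pr (i + 1)) *
      ((hom pr i).map δ).relIndex ((flt pr i ⊓ (δ + d).ker).map (pr i)) := by
  rw [G.hh_eq]
  apply Nat.mul_le_mul_right
  exact AddSubgroup.relIndex_le_of_le_left (AddSubgroup.map_mono Gr.flt_mono) h

omit G in
theorem Gr.hh_eq0 (G : Gr pr δ 0 N) (i : ℕ) : hh (δ + 0) (flt pr i) = hh (δ + 0) (flt pr (i + 1)) *
      ((hom pr i).map δ).relIndex ((flt pr i ⊓ (δ + 0).ker).map (pr i)) := by
  rw [G.hh_eq]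
  congr 1
  unfold hh
  rw [← AddSubgroup.inf_relIndex_right,
    ← AddSubgroup.inf_relIndex_right ((flt pr (i + 1)).map (δ + 0))]
  congr 1
  ext x
  constructor
  · rintro ⟨⟨u, hu, rfl⟩, hx⟩
    refine ⟨⟨u - pr i u, ?_, ?_⟩, hx⟩
    · apply Gr.flt_succ
      · exact (flt pr i).sub_mem hu (G.hom_flt (G.pr_hom i u))
      · rw [map_sub, G.prpr, if_pos rfl, sub_self]
    · have e := hx.1 i (by omega)
      rw [G.pr_D hu] at e
      rw [map_sub]
      have e2 : (δ + 0) (pr i u) = 0 := by rw [add_zero, e]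
      rw [e2, sub_zero]
  · rintro ⟨⟨u, hu, rfl⟩, hx⟩
    exact ⟨⟨u, Gr.flt_mono hu, rfl⟩, hx⟩

omit G in
theorem Gr.top0 (G : Gr pr δ 0 N) (i : ℕ) :
    (flt pr i ⊓ (δ + 0).ker).map (pr i) = hom pr i ⊓ δ.ker := by
  ext x
  constructor
  · rintro ⟨y, hy, rfl⟩
    refine ⟨G.pr_hom i y, ?_⟩
    have h2 : (δ + 0) y = 0 := hy.2
    rw [add_zero] at h2
    show δ (pr i y) = 0
    rw [← G.prδ, h2, map_zero]
  · rintro ⟨h1, h2⟩
    refine ⟨x, ⟨G.hom_flt h1, ?_⟩, h1⟩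
    show (δ + 0) x = 0
    rw [add_zero]
    exact h2

theorem Gr.flt_top : flt pr (N + 1) = ⊥ := by
  rw [eq_bot_iff]
  intro x hx
  rw [AddSubgroup.mem_bot, ← G.sum x]
  exact Finset.sum_eq_zero fun i hi => hx i (Finset.mem_range.mp hi)

omit G in
theorem flt_zero : flt pr 0 = ⊤ := by
  rw [eq_top_iff]
  intro x _ j hj
  omega

omit G in
theorem hh_bot (D : U →+ U) : hh D ⊥ = 1 := by
  unfold hh
  rw [bot_inf_eq, AddSubgroup.relIndex_bot_right]

theorem Gr.pr_ker (i : ℕ) :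
    (flt pr i ⊓ (δ + d).ker).map (pr i) ≤ hom pr i ⊓ δ.ker := by
  rintro _ ⟨y, hy, rfl⟩
  refine ⟨G.pr_hom i y, ?_⟩
  show δ (pr i y) = 0
  rw [← G.pr_D hy.1]
  have : (δ + d) y = 0 := hy.2
  rw [this, map_zero]

theorem Gr.δ_ker (i : ℕ) :
    (hom pr i).map δ ≤ (flt pr i ⊓ (δ + d).ker).map (pr i) := by
  rintro _ ⟨y, hy, rfl⟩
  have hy' : y ∈ flt pr i := G.hom_flt hy
  have hyy : pr i y = y := hy
  refine ⟨(δ + d) y, ⟨G.flt_D hy', G.DD y⟩, ?_⟩
  rw [G.pr_D hy', hyy]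

theorem Gr.hhδ (i : ℕ) : hh δ (flt pr i) = hh δ (flt pr (i + 1)) *
    ((hom pr i).map δ).relIndex (hom pr i ⊓ δ.ker) := by
  have h := Gr.hh_eq0 G.gr0 i
  rw [Gr.top0 G.gr0, add_zero] at h
  exact h

theorem Gr.hhδ_ne (h0 : hh δ (⊤ : AddSubgroup U) ≠ 0) (i : ℕ) : hh δ (flt pr i) ≠ 0 := by
  induction i with
  | zero => rwa [flt_zero]
  | succ i ih =>
    rw [G.hhδ] at ih
    exact left_ne_zero_of_mul ih

theorem Gr.c_ne (h0 : hh δ (⊤ : AddSubgroup U) ≠ 0) (i : ℕ) :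
    ((hom pr i).map δ).relIndex (hom pr i ⊓ δ.ker) ≠ 0 := by
  have := G.hhδ_ne h0 i
  rw [G.hhδ] at this
  exact right_ne_zero_of_mul this

/-- comparison of the two cohomologies -/
theorem Gr.compare (h0 : hh δ (⊤ : AddSubgroup U) ≠ 0) (k : ℕ) (hk : k ≤ N + 1) :
    hh (δ + d) (flt pr (N + 1 - k)) ≠ 0 ∧
    hh (δ + d) (flt pr (N + 1 - k)) ≤ hh δ (flt pr (N + 1 - k)) := by
  induction k with
  | zero =>
    rw [Nat.sub_zero, G.flt_top, hh_bot, hh_bot]
    exact ⟨one_ne_zero, le_rfl⟩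
  | succ k ih =>
    obtain ⟨h1, h2⟩ := ih (by omega)
    have e : N + 1 - k = (N + 1 - (k + 1)) + 1 := by omega
    rw [e] at h1 h2
    generalize N + 1 - (k + 1) = i at h1 h2 ⊢
    constructor
    · rw [G.hh_eq]
      apply mul_ne_zero
      · exact ne_zero_of_dvd_ne_zero h1 (AddSubgroup.relIndex_dvd_of_le_left
          (L := flt pr (i + 1) ⊓ (δ + d).ker)
          (AddSubgroup.map_mono (f := δ + d) (Gr.flt_mono (pr := pr) (i := i))))
      · have h8 := G.c_ne h0 i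
        rw [← AddSubgroup.relIndex_mul_relIndex _ _ _ (G.δ_ker i) (G.pr_ker i)] at h8
        exact left_ne_zero_of_mul h8
    · calc hh (δ + d) (flt pr i) ≤ hh (δ + d) (flt pr (i + 1)) *
            ((hom pr i).map δ).relIndex ((flt pr i ⊓ (δ + d).ker).map (pr i)) := G.hh_le i h1
        _ ≤ hh δ (flt pr (i + 1)) * ((hom pr i).map δ).relIndex (hom pr i ⊓ δ.ker) :=
          Nat.mul_le_mul h2 (AddSubgroup.relIndex_le_of_le_right (G.pr_ker i) (G.c_ne h0 i))
        _ = hh δ (flt pr i) := (G.hhδ i).symm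

/-- every `δ`-cocycle of degree zero lifts to a `D`-cocycle -/
theorem Gr.lift (h0 : hh δ (⊤ : AddSubgroup U) ≠ 0) (Ψ : U →+ U)
    (hΨ : ∀ x, Ψ (δ x) = (δ + d) (Ψ x))
    (hinj : ∀ x y, δ x = 0 → Ψ x = (δ + d) y → ∃ g, x = δ g)
    (z : U) (hz : pr 0 z = z) (hδ : δ z = 0) : ∃ x, (δ + d) x = 0 ∧ pr 0 x = z := by
  have c0 := G.compare h0 (N + 1) le_rfl
  have c1 := G.compare h0 N (Nat.le_succ N)
  rw [Nat.sub_self] at c0
  rw [show N + 1 - N = 0 + 1 by omega] at c1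
  have e1 : hh δ (⊤ : AddSubgroup U) ≤ hh (δ + d) (flt pr 0) := by
    have e2 : hh δ (⊤ : AddSubgroup U) = ((⊤ : AddSubgroup U).map (δ + d)).relIndex (δ.ker.map Ψ) := by
      unfold hh
      rw [top_inf_eq, ← AddSubgroup.relIndex_comap, ← AddSubgroup.inf_relIndex_right,
        ← AddSubgroup.inf_relIndex_right (((⊤ : AddSubgroup U).map (δ + d)).comap Ψ)]
      congr 1
      ext x
      constructor
      · rintro ⟨⟨u, _, rfl⟩, hx⟩
        exact ⟨⟨Ψ u, trivial, (hΨ u).symm⟩, hx⟩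
      · rintro ⟨⟨y, _, hy⟩, hx⟩
        obtain ⟨g, rfl⟩ := hinj x y hx hy.symm
        exact ⟨⟨g, trivial, rfl⟩, hx⟩
    rw [e2]
    have h3 := c0.1
    rw [flt_zero] at h3 ⊢
    unfold hh at h3 ⊢
    rw [top_inf_eq] at h3 ⊢
    refine AddSubgroup.relIndex_le_of_le_right ?_ h3
    rintro _ ⟨x, hx, rfl⟩
    show (δ + d) (Ψ x) = 0
    have hx' : δ x = 0 := hx
    rw [← hΨ, hx', map_zero]
  have e4 : hh δ (flt pr (0 + 1)) * ((hom pr 0).map δ).relIndex (hom pr 0 ⊓ δ.ker) ≤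
      hh δ (flt pr (0 + 1)) *
        ((hom pr 0).map δ).relIndex ((flt pr 0 ⊓ (δ + d).ker).map (pr 0)) := by
    rw [← G.hhδ, flt_zero (pr := pr)]
    calc hh δ (⊤ : AddSubgroup U) ≤ hh (δ + d) (flt pr 0) := e1
      _ ≤ _ := G.hh_le 0 c1.1
      _ ≤ _ := by
        rw [flt_zero (pr := pr)]
        exact Nat.mul_le_mul_right _ c1.2
  have e5 := Nat.le_of_mul_le_mul_left e4 (Nat.pos_of_ne_zero (G.hhδ_ne h0 (0 + 1)))
  have e6 := AddSubgroup.relIndex_mul_relIndex _ _ _ (G.δ_ker 0) (G.pr_ker 0)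
  have e7 : ((flt pr 0 ⊓ (δ + d).ker).map (pr 0)).relIndex (hom pr 0 ⊓ δ.ker) = 1 := by
    have h8 := G.c_ne h0 0
    rw [← e6] at e5 h8
    have h9 := Nat.pos_of_ne_zero (left_ne_zero_of_mul h8)
    have h10 := Nat.pos_of_ne_zero (right_ne_zero_of_mul h8)
    have := Nat.le_of_mul_le_mul_left (e5.trans_eq (mul_one _).symm) h9
    omega
  rw [AddSubgroup.relIndex_eq_one] at e7
  obtain ⟨x, hx, hx2⟩ := e7 ⟨hz, hδ⟩
  exact ⟨x, hx.2, hx2⟩

end Count

end Pool.Agent.DBX.DIB
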