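import Pool.Agent.DBX.DIB.Stmts
import Pool.Agent.DBX.DIB.Count

set_option autoImplicit false

namespace Pool.Agent.DBX.DIB

universe u

theorem cnt_proof : Stmt_CNT.{u} := by
  intro W _ n π δ d Ψ U h1 h2 h3 h4 h5 hπ hδ hd hΨ hδδ hDD hΨc hinj hfin z hz hδz hz0
  rcases n with _ | N
  · have hz' : z = 0 := by
      rw [h2 z]
      simp
    subst hz'
    exact ⟨0, U.zero_mem, by simp, 0, U.zero_mem, by simp, by simp⟩
  let pr' : ℕ → U →+ U := fun i => ((π i).comp U.subtype).codRestrict U (fun x => hπ x.1 x.2 i)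
  let δ' : U →+ U := (δ.comp U.subtype).codRestrict U (fun x => hδ x.1 x.2)
  let d' : U →+ U := (d.comp U.subtype).codRestrict U (fun x => hd x.1 x.2)
  let Ψ' : U →+ U := (Ψ.comp U.subtype).codRestrict U (fun x => hΨ x.1 x.2)
  have cpr : ∀ i (x : U), ((pr' i x : U) : W) = π i x := fun _ _ => rfl
  have cδ : ∀ x : U, ((δ' x : U) : W) = δ x := fun _ => rfl
  have cd' : ∀ x : U, ((d' x : U) : W) = d x := fun _ => rfl
  have cΨ : ∀ x : U, ((Ψ' x : U) : W) = Ψ x := fun _ => rfl
  have G : Gr pr' δ' d' N := by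
    refine ⟨?_, ?_, ?_, ?_, ?_, ?_⟩
    · intro i j x
      apply Subtype.ext
      rw [cpr, cpr, h1]
      by_cases h : i = j
      · subst h
        rw [if_pos rfl, if_pos rfl, cpr]
      · rw [if_neg h, if_neg h]
        rfl
    · intro x
      apply Subtype.ext
      rw [AddSubgroup.val_finset_sum]
      exact (h2 x).symm
    · intro i x
      exact Subtype.ext (h3 i x)
    · intro i x
      exact Subtype.ext (h4 i x)
    · intro x
      exact Subtype.ext (h5 x)
    · intro x
      apply Subtype.ext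
      have := hDD x.1 x.2
      show δ (δ x + d x) + d (δ x + d x) = 0
      exact this
  have h0 : hh δ' (⊤ : AddSubgroup U) ≠ 0 := by
    obtain ⟨S, hS, hS2⟩ := hfin
    unfold hh
    rw [top_inf_eq]
    haveI : Finite S := hS
    have : Finite (δ'.ker ⧸ ((⊤ : AddSubgroup U).map δ').addSubgroupOf δ'.ker) := by
      classical
      let f : S → (δ'.ker ⧸ ((⊤ : AddSubgroup U).map δ').addSubgroupOf δ'.ker) := fun g =>
        if h : ∃ hg : (g : W) ∈ U, δ' ⟨g, hg⟩ = 0 then
          QuotientAddGroup.mk (⟨⟨g, h.choose⟩, h.choose_spec⟩ : δ'.ker) else 0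
      apply Finite.of_surjective f
      intro q
      obtain ⟨x, rfl⟩ := QuotientAddGroup.mk_surjective q
      have hx : δ (x : U) = 0 := by
        have := x.2
        rw [AddMonoidHom.mem_ker] at this
        exact congrArg Subtype.val this
      obtain ⟨g, hg, y, hy, e⟩ := hS2 _ (x : U).2 hx
      have hgU : g ∈ U := by
        have : g = (x : U) - δ y := by rw [e]; abel
        rw [this]
        exact U.sub_mem (x : U).2 (hδ y hy)
      have hg0 : δ' ⟨g, hgU⟩ = 0 := by
        apply Subtype.ext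
        show δ g = 0
        have h6 := hx
        rw [e, map_add, hδδ y hy, add_zero] at h6
        exact h6
      refine ⟨⟨g, hg⟩, ?_⟩
      have hex : ∃ hg : g ∈ U, δ' ⟨g, hg⟩ = 0 := ⟨hgU, hg0⟩
      show (if h : ∃ hg : g ∈ U, δ' ⟨g, hg⟩ = 0 then
          (QuotientAddGroup.mk (⟨⟨g, h.choose⟩, h.choose_spec⟩ : δ'.ker) :
            (δ'.ker ⧸ ((⊤ : AddSubgroup U).map δ').addSubgroupOf δ'.ker)) else 0) = _
      rw [dif_pos hex, QuotientAddGroup.eq, AddSubgroup.mem_addSubgroupOf]
      refine ⟨⟨y, hy⟩, trivial, ?_⟩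
      apply Subtype.ext
      show δ y = - g + (x : U)
      rw [e]
      abel
    exact AddSubgroup.index_ne_zero_of_finite
  obtain ⟨x, hx, hx2⟩ := G.lift h0 Ψ' (fun x => Subtype.ext (hΨc x.1 x.2).symm)
    (fun x y hx hxy => by
      obtain ⟨x', hx', e⟩ := hinj x.1 x.2 (congrArg Subtype.val hx) y.1 y.2
        (congrArg Subtype.val hxy)
      exact ⟨⟨x', hx'⟩, Subtype.ext e⟩)
    ⟨z, hz⟩ (Subtype.ext hz0) (Subtype.ext hδz)
  refine ⟨x, x.2, congrArg Subtype.val hx, 0, U.zero_mem, map_zero _, ?_⟩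
  rw [map_zero, add_zero]
  exact congrArg Subtype.val hx2

end Pool.Agent.DBX.DIB
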