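import Pool.Agent.DBX.DIB.Stmts
import Pool.Agent.DBX.Cd

set_option autoImplicit false

namespace Pool.Agent.DBX.DIB

open KaehlerDifferential Pool.Agent.DBE Pool.Agent.DBX

universe u

noncomputable section

namespace DDD_

theorem sg_erase {V : Type} [DecidableEq V] (s : Finset V) (v : V) (hv : v ∈ s) :
    sg (s.erase v) = - sg s := by
  unfold sg
  rw [Finset.card_erase_add_one hv, pow_succ]
  ring

theorem sg_mul_self {V : Type} (s : Finset V) : sg s * sg s = 1 := by
  unfold sg
  rw [← mul_pow]
  simp

theorem cd_sg {V : Type} [LinearOrder V] {M : Type*} [AddCommGroup M] (γ : Finset V → M)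
    (s : Finset V) : cd (fun t => sg t • γ t) s = - (sg s • cd γ s) := by
  rw [cd_apply, cd_apply, Finset.smul_sum, ← Finset.sum_neg_distrib]
  apply Finset.sum_congr rfl
  intro v hv
  rw [sg_erase s v hv, neg_smul, smul_neg, smul_comm]

end DDD_

theorem ddd_proof (_hCDI : Stmt_CDI.{u}) : Stmt_DDD.{u} := by
  intro V _ B R _ _ _
  constructor
  · intro β
    funext s
    have h1 : DD B R β = cd β + (fun t => sg t • dR B R (β t)) := rfl
    have h2 : cd (DD B R β) s = - (sg s • dR B R (cd β s)) := by
      rw [h1, cd_add, Pi.add_apply, DDD_.cd_sg, cd_cd, Pi.zero_apply, zero_add]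
      rw [cd_map (dR B R) β]
    have h3 : DD B R (DD B R β) s = cd (DD B R β) s + sg s • dR B R (DD B R β s) := rfl
    have h4 : dR B R (DD B R β s) = dR B R (cd β s) := by
      have h5 : DD B R β s = cd β s + sg s • dR B R (β s) := rfl
      rw [h5, map_add, map_zsmul, dR_dR, smul_zero, add_zero]
    rw [h3, h2, h4, Pi.zero_apply, neg_add_cancel]
  · intro β γ
    funext s
    have h1 : ∀ β : Finset V → DR B R, DD B R β s = cd β s + sg s • dR B R (β s) := fun _ => rfl
    rw [Pi.add_apply, h1, h1, h1, cd_add, Pi.add_apply, Pi.add_apply, map_add, smul_add]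
    abel

end

end Pool.Agent.DBX.DIB
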