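import Pool.Agent.DBX.DIB.Stmts

/-!
# DBX, area DIB, module DIB: the conclusion of the cochain part.
-/

set_option autoImplicit false

namespace Pool.Agent.DBX.DIB

open KaehlerDifferential Pool.Agent.DBE Pool.Agent.DBX

universe u

noncomputable section

namespace DIB_

section

variable (V : Type) [LinearOrder V] (B : Type) (R : Type u) [CommRing B] [CommRing R]
  [Algebra B R]

/-- pointwise projection -/
def pi (i : ℕ) : (Finset V → DR B R) →+ (Finset V → DR B R) where
  toFun x s := pr B R i (x s)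
  map_zero' := by funext s; exact map_zero _
  map_add' x y := by funext s; exact map_add _ _ _

/-- `cd` as a homomorphism; additivity is a hypothesis -/
def cdH (h : ∀ β γ : Finset V → DR B R, cd (β + γ) = cd β + cd γ) :
    (Finset V → DR B R) →+ (Finset V → DR B R) := AddMonoidHom.mk' cd h

/-- the signed de Rham differential -/
def dH : (Finset V → DR B R) →+ (Finset V → DR B R) where
  toFun x s := sg s • dR B R (x s)
  map_zero' := by funext s; simp
  map_add' x y := by funext s; simp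

end

end DIB_

open DIB_ in
theorem dib_proof (hCDI : Stmt_CDI.{u}) (hDDD : Stmt_DDD.{u}) (hPCH : Stmt_PCH.{u})
    (hPME : Stmt_PME.{u}) (hQIS : Stmt_QIS.{u}) (hGRD : Stmt_GRD.{u}) (hCNT : Stmt_CNT.{u}) :
    Stmt_DIB.{u} := by
  intro p _ V _ _ B R _ _ _ _ F Λ T T' hp hT hT' hC hC' _hTT' hfin z hz0 hz hcz
  obtain ⟨-, -, hadd, hcdcd, hmap⟩ := hCDI
  obtain ⟨hg, hgK, hg0, hgfn⟩ := hGRD
  obtain ⟨hgd, hgd0, hgex, hgf0, hginj, hgpp, hgsum⟩ := hg B R
  have hmapR : ∀ (x : Finset V → R) (s : Finset V), cd (fun t => fn B R (x t)) s = fn B R (cd x s) :=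
    fun x s => hmap V R (DR B R) (fn B R).toAddMonoidHom x s
  have hmapP : ∀ (i : ℕ) (x : Finset V → DR B R) (s : Finset V),
      cd (fun t => pr B R i (x t)) s = pr B R i (cd x s) :=
    fun i x s => hmap V (DR B R) (DR B R) (pr B R i) x s
  obtain ⟨-, -, hdK, hPhiT, hcdC, hDDC⟩ := hPME p V B R F Λ T T hT hT hC
  obtain ⟨-, -, -, hPhiT', -, -⟩ := hPME p V B R F Λ T T' hT hT' hC'
  obtain ⟨hinj, hsurj⟩ := hQIS p V B R F Λ T T hp hT hT hC
  have hPhiadd : ∀ w w', F.Phi (w + w') = F.Phi w + F.Phi w' :=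
    fun w w' => (hPCH p V B R F w w').2.1
  have hPhi0 : F.Phi 0 = 0 := by
    have := hPhiadd 0 0
    rw [add_zero] at this
    exact left_eq_add.mp this
  have hchain : ∀ w : Finset V → DR B R, w ∅ = 0 → DD B R (F.Phi w) = F.Phi (cd w) :=
    fun w => (hPCH p V B R F w w).2.2
  let δ := cdH V B R (hadd V (DR B R))
  let d := dH V B R
  let Ψ : (Finset V → DR B R) →+ (Finset V → DR B R) := AddMonoidHom.mk' F.Phi hPhiadd
  have hDD : ∀ x, δ x + d x = DD B R x := fun x => rfl
  -- the cocycle `z` as a cochain of forms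
  let Z : Finset V → DR B R := fun s => fn B R (z s)
  have hZC : Z ∈ Λ.C T := by
    refine ⟨?_, fun s hs => ?_⟩
    · change fn B R (z ∅) = 0
      rw [hz0, map_zero]
    · obtain ⟨a, ha, e⟩ := hz s hs
      change fn B R (z s) ∈ _
      rw [e]
      exact hgfn V B R Λ T s a ha
  have hZ0 : δ Z = 0 := by
    funext s
    change cd (fun t => fn B R (z t)) s = 0
    rw [hmapR, hcz]
    exact map_zero _
  obtain ⟨x, hx, hDx, y, hy, hy0, hxy⟩ := hCNT (Finset V → DR B R) p (pi V B R) δ d Ψ (Λ.C T)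
    (by
      intro i j x
      funext s
      have h := hgpp i j (x s)
      change pr B R i (pr B R j (x s)) = _
      rw [h]
      split_ifs <;> rfl)
    (by
      intro x
      funext s
      rw [Finset.sum_apply]
      exact hgsum p hp (x s))
    (by
      intro i x
      funext s
      exact (hmapP i x s).symm)
    (by
      intro i x
      funext s
      change pr B R (i + 1) (sg s • dR B R (x s)) = sg s • dR B R (pr B R i (x s))
      rw [map_zsmul, hgd])
    (by
      intro x
      funext s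
      change pr B R 0 (sg s • dR B R (x s)) = 0
      rw [map_zsmul, hgd0, smul_zero])
    (by
      intro x hx i
      refine ⟨?_, fun s hs => hgK V B R Λ T s i (x s) (hx.2 s hs)⟩
      change pr B R i (x ∅) = 0
      rw [hx.1, map_zero])
    (fun x hx => hcdC x hx)
    (by
      intro x hx
      refine ⟨?_, fun s hs => AddSubgroup.zsmul_mem _ (hdK s hs (x s) (hx.2 s hs)) _⟩
      change sg ∅ • dR B R (x ∅) = 0
      rw [hx.1, map_zero, smul_zero])
    (fun x hx => hPhiT x hx)
    (fun x _ => hcdcd V (DR B R) x)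
    (fun x _ => (hDDD V B R).1 x)
    (fun x hx => hchain x hx.1)
    (fun x hx h y hy hxy => hinj x hx h y hy hxy)
    hfin Z hZC hZ0
    (by
      funext s
      exact hgf0 (z s))
  -- the quasi-isomorphism
  obtain ⟨w, hw, hcw, y', hy', hxw⟩ := hsurj x hx hDx
  have hP : F.Phi w ∈ Λ.C T' := hPhiT' w hw
  -- `z'`
  have hz' : ∀ s : Finset V, ∃ b : R, pr B R 0 (F.Phi w s) = fn B R b ∧ (s = ∅ → b = 0) ∧
      (s.Nonempty → ∃ a ∈ Λ.A s, b = T' s * a) := by
    intro s
    rcases s.eq_empty_or_nonempty with rfl | hs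
    · exact ⟨0, by rw [hP.1, map_zero, map_zero], fun _ => rfl, fun h => absurd rfl h.ne_empty⟩
    · obtain ⟨a, ha, e⟩ := hg0 V B R Λ T' s _ (hP.2 s hs)
      exact ⟨T' s * a, e, fun h => absurd h hs.ne_empty, fun _ => ⟨a, ha, rfl⟩⟩
  have hyy : y' - y ∈ Λ.C T := sub_mem hy' hy
  have hy'' : ∀ s : Finset V, ∃ b : R, pr B R 0 ((y' - y) s) = fn B R b ∧ (s = ∅ → b = 0) ∧
      (s.Nonempty → ∃ a ∈ Λ.A s, b = T s * a) := by
    intro s
    rcases s.eq_empty_or_nonempty with rfl | hs
    · exact ⟨0, by rw [hyy.1, map_zero, map_zero], fun _ => rfl, fun h => absurd rfl h.ne_empty⟩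
    · obtain ⟨a, ha, e⟩ := hg0 V B R Λ T s _ (hyy.2 s hs)
      exact ⟨T s * a, e, fun h => absurd h hs.ne_empty, fun _ => ⟨a, ha, rfl⟩⟩
  choose z' hz'1 hz'2 hz'3 using hz'
  choose v hv1 hv2 hv3 using hy''
  refine ⟨z', v, hz'2 ∅ rfl, fun s hs => hz'3 s hs, ?_, hv2 ∅ rfl, fun s hs => hv3 s hs, ?_⟩
  · -- `cd z' = 0`
    funext s
    apply hginj
    rw [← hmapR]
    have e1 : (fun t => fn B R (z' t)) = fun t => pr B R 0 (F.Phi w t) := by
      funext t
      exact (hz'1 t).symm
    rw [e1, hmapP]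
    have e2 : DD B R (F.Phi w) s = 0 := by
      rw [hchain w hw.1, hcw, hPhi0]
      rfl
    have e3 : cd (F.Phi w) s = - (sg s • dR B R (F.Phi w s)) := eq_neg_of_add_eq_zero_left e2
    rw [e3, map_neg, map_zsmul, hgd0, smul_zero, neg_zero]
    exact (map_zero _).symm
  · funext s
    apply hginj
    rw [Pi.add_apply, map_add, ← hmapR]
    have e1 : (fun t => fn B R (v t)) = fun t => pr B R 0 ((y' - y) t) := by
      funext t
      exact (hv1 t).symm
    rw [e1, hmapP, ← hz'1]
    have e2 : cd (y' - y) s = cd y' s - cd y s := by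
      have h := congrFun (hadd V (DR B R) (y' - y) y) s
      rw [sub_add_cancel, Pi.add_apply] at h
      rw [h, add_sub_cancel_right]
    have e3 : pr B R 0 (x s) = fn B R (z s) + cd y s := congrFun hxy s
    have e4 : pr B R 0 (x s) = pr B R 0 (F.Phi w s) + pr B R 0 (cd y' s) := by
      have h : x s = F.Phi w s + (cd y' s + sg s • dR B R (y' s)) := congrFun hxw s
      rw [h, map_add, map_add, map_zsmul, hgd0, smul_zero, add_zero]
    have e5 : pr B R 0 (cd y s) = cd y s := by
      rw [← hmapP]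
      exact congrArg (fun q : Finset V → DR B R => cd q s) hy0
    rw [e2, map_sub, e5]
    rw [e4] at e3
    rw [← add_sub_assoc, e3, add_sub_cancel_right]

end

end Pool.Agent.DBX.DIB
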