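import Pool.Agent.DBX.DIB.Stmts

/-! # MP_2c751f_ag, squad DBX, area DIB, module GRD -/

set_option autoImplicit false

namespace Pool.Agent.DBX.DIB

open KaehlerDifferential Pool.Agent.DBE Pool.Agent.DBX

universe u

noncomputable section

namespace GRD_

section basic

variable {B : Type} {R : Type u} [CommRing B] [CommRing R] [Algebra B R]

/-- the grading -/
abbrev Gr (B : Type) (R : Type u) [CommRing B] [CommRing R] [Algebra B R] (i : ℕ) :
    Submodule R (DR B R) := ⋀[R]^i (Ω[R⁄B])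

theorem pr_apply (i : ℕ) (x : DR B R) :
    pr B R i x = (DirectSum.decompose (fun i : ℕ => ⋀[R]^i (Ω[R⁄B])) x i : DR B R) := rfl

theorem pr_mem (i : ℕ) (x : DR B R) : pr B R i x ∈ ⋀[R]^i (Ω[R⁄B]) :=
  (DirectSum.decompose (fun i : ℕ => ⋀[R]^i (Ω[R⁄B])) x i).2

theorem fn_mem (a : R) : fn B R a ∈ ⋀[R]^0 (Ω[R⁄B]) := by
  change fn B R a ∈ (LinearMap.range (ExteriorAlgebra.ι R : Ω[R⁄B] →ₗ[R] DR B R)) ^ 0
  rw [pow_zero]
  exact Submodule.algebraMap_mem a

theorem one_mem' (w : Ω[R⁄B]) : one B R w ∈ ⋀[R]^1 (Ω[R⁄B]) := by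
  change one B R w ∈ (LinearMap.range (ExteriorAlgebra.ι R : Ω[R⁄B] →ₗ[R] DR B R)) ^ 1
  rw [pow_one]
  exact LinearMap.mem_range_self _ w

theorem pr_same {i : ℕ} {x : DR B R} (hx : x ∈ ⋀[R]^i (Ω[R⁄B])) : pr B R i x = x :=
  DirectSum.decompose_of_mem_same (fun i : ℕ => ⋀[R]^i (Ω[R⁄B])) hx

theorem pr_ne {i j : ℕ} {x : DR B R} (hx : x ∈ ⋀[R]^i (Ω[R⁄B])) (h : i ≠ j) :
    pr B R j x = 0 :=
  DirectSum.decompose_of_mem_ne (fun i : ℕ => ⋀[R]^i (Ω[R⁄B])) hx h

theorem pr_hom {i j : ℕ} {x : DR B R} (hx : x ∈ ⋀[R]^i (Ω[R⁄B])) :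
    pr B R j x = if i = j then x else 0 := by
  split_ifs with h
  · subst h; exact pr_same hx
  · exact pr_ne hx h

theorem pr_fn_mul (i : ℕ) (a : R) (x : DR B R) :
    pr B R i (fn B R a * x) = fn B R a * pr B R i x :=
  DirectSum.coe_decompose_mul_of_left_mem_zero (fun i : ℕ => ⋀[R]^i (Ω[R⁄B])) (fn_mem a)

theorem pr_fn (i : ℕ) (a : R) : pr B R i (fn B R a) = if 0 = i then fn B R a else 0 :=
  pr_hom (fn_mem a)

theorem pr_dd_mul_succ (i : ℕ) (a : R) (x : DR B R) :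
    pr B R (i + 1) (DBE.dd B R a * x) = DBE.dd B R a * pr B R i x := by
  have h := DirectSum.coe_decompose_mul_of_left_mem_of_le
    (fun i : ℕ => ⋀[R]^i (Ω[R⁄B])) (a := DBE.dd B R a) (b := x) (i := 1) (n := i + 1)
    (one_mem' (D B R a)) (by omega)
  rw [Nat.add_sub_cancel] at h
  exact h

theorem pr_dd_mul_zero (a : R) (x : DR B R) : pr B R 0 (DBE.dd B R a * x) = 0 :=
  DirectSum.coe_decompose_mul_of_left_mem_of_not_le
    (fun i : ℕ => ⋀[R]^i (Ω[R⁄B])) (a := DBE.dd B R a) (b := x) (i := 1) (n := 0)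
    (one_mem' (D B R a)) (by omega)

theorem pr_dd (i : ℕ) (a : R) : pr B R i (DBE.dd B R a) = if 1 = i then DBE.dd B R a else 0 :=
  pr_hom (one_mem' (D B R a))

theorem pr_zero_dR (x : DR B R) : pr B R 0 (dR B R x) = 0 := by
  induction x using DR_induction with
  | hf a => rw [dR_fn, pr_dd]; rfl
  | hm a x h => rw [dR_dd_mul, map_neg, pr_dd_mul_zero, neg_zero]
  | hs a x h => rw [dR_fn_mul, map_add, pr_dd_mul_zero, pr_fn_mul, h, mul_zero, add_zero]
  | ha x y h1 h2 => rw [map_add, map_add, h1, h2, add_zero]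

theorem pr_dR (x : DR B R) : ∀ i, dR B R (pr B R i x) = pr B R (i + 1) (dR B R x) := by
  induction x using DR_induction with
  | hf a =>
    intro i
    rw [pr_fn, dR_fn, pr_dd]
    by_cases h : i = 0
    · subst h
      simp
    · rw [if_neg (fun h' => h h'.symm), if_neg (by omega), map_zero]
  | hm a x h =>
    intro i
    rcases i with _ | i
    · rw [pr_dd_mul_zero, map_zero, dR_dd_mul, map_neg, pr_dd_mul_succ, pr_zero_dR, mul_zero,
        neg_zero]
    · rw [pr_dd_mul_succ, dR_dd_mul, dR_dd_mul, map_neg, pr_dd_mul_succ, h]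
  | hs a x h =>
    intro i
    rw [pr_fn_mul, dR_fn_mul, dR_fn_mul, map_add, pr_dd_mul_succ, pr_fn_mul, h]
  | ha x y h1 h2 =>
    intro i
    rw [map_add, map_add, map_add, map_add, h1, h2]

theorem pr_zero_fn (x : DR B R) : ∃ a : R, pr B R 0 x = fn B R a := by
  induction x using DR_induction with
  | hf a => exact ⟨a, by rw [pr_fn, if_pos rfl]⟩
  | hm a x h => exact ⟨0, by rw [pr_dd_mul_zero, map_zero]⟩
  | hs a x h =>
    obtain ⟨b, hb⟩ := h
    exact ⟨a * b, by rw [pr_fn_mul, hb, map_mul]⟩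
  | ha x y h1 h2 =>
    obtain ⟨a, ha⟩ := h1
    obtain ⟨b, hb⟩ := h2
    exact ⟨a + b, by rw [map_add, ha, hb, map_add]⟩

theorem fn_inj (a b : R) (h : fn B R a = fn B R b) : a = b :=
  (ExteriorAlgebra.algebraMap_leftInverse (Ω[R⁄B])).injective h

theorem pr_pr (i j : ℕ) (x : DR B R) :
    pr B R i (pr B R j x) = if i = j then pr B R j x else 0 := by
  rw [pr_hom (pr_mem j x)]
  by_cases h : i = j
  · rw [if_pos h, if_pos h.symm]
  · rw [if_neg h, if_neg (fun h' => h h'.symm)]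

/-- every element is the sum of its components -/
theorem sum_pr (x : DR B R) : ∃ N : ℕ, ∀ M, N ≤ M → x = ∑ i ∈ Finset.range M, pr B R i x := by
  induction x using DR_induction with
  | hf a =>
    refine ⟨1, fun M hM => ?_⟩
    rw [Finset.sum_eq_single 0]
    · rw [pr_fn, if_pos rfl]
    · intro b _ hb
      rw [pr_fn, if_neg (fun h => hb h.symm)]
    · intro h
      exact absurd (Finset.mem_range.2 (by omega)) h
  | hm a x h =>
    obtain ⟨N, hN⟩ := h
    refine ⟨N + 1, fun M hM => ?_⟩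
    obtain ⟨M', rfl⟩ : ∃ M', M = M' + 1 := ⟨M - 1, by omega⟩
    rw [Finset.sum_range_succ', pr_dd_mul_zero, add_zero]
    simp only [pr_dd_mul_succ]
    rw [← Finset.mul_sum, ← hN M' (by omega)]
  | hs a x h =>
    obtain ⟨N, hN⟩ := h
    refine ⟨N, fun M hM => ?_⟩
    simp only [pr_fn_mul]
    rw [← Finset.mul_sum, ← hN M hM]
  | ha x y h1 h2 =>
    obtain ⟨N, hN⟩ := h1
    obtain ⟨N', hN'⟩ := h2
    refine ⟨max N N', fun M hM => ?_⟩
    simp only [map_add]
    rw [Finset.sum_add_distrib, ← hN M (le_trans (le_max_left _ _) hM),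
      ← hN' M (le_trans (le_max_right _ _) hM)]

theorem bot_of_ge (n : ℕ) (hn : ∀ w : Fin n → Ω[R⁄B], ExteriorAlgebra.ιMulti R n w = 0) (m : ℕ)
    (hm : n ≤ m) : (⋀[R]^m (Ω[R⁄B]) : Submodule R (DR B R)) = ⊥ := by
  have h0 : (⋀[R]^n (Ω[R⁄B]) : Submodule R (DR B R)) = ⊥ := by
    rw [← ExteriorAlgebra.ιMulti_span_fixedDegree, Submodule.span_eq_bot]
    rintro _ ⟨w, rfl⟩
    exact hn w
  obtain ⟨l, rfl⟩ := Nat.exists_eq_add_of_le hm
  change (LinearMap.range (ExteriorAlgebra.ι R : Ω[R⁄B] →ₗ[R] DR B R)) ^ (n + l) = ⊥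
  rw [pow_add]
  have h1 : (LinearMap.range (ExteriorAlgebra.ι R : Ω[R⁄B] →ₗ[R] DR B R)) ^ n = ⊥ := h0
  rw [h1, Submodule.bot_mul]

theorem sum_range (n : ℕ) (hn : ∀ w : Fin n → Ω[R⁄B], ExteriorAlgebra.ιMulti R n w = 0)
    (x : DR B R) : x = ∑ i ∈ Finset.range n, pr B R i x := by
  obtain ⟨N, hN⟩ := sum_pr x
  have h1 := hN (n + N) (by omega)
  have h2 : ∑ i ∈ Finset.range n, pr B R i x = ∑ i ∈ Finset.range (n + N), pr B R i x := by
    refine Finset.sum_subset ?_ ?_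
    · intro i hi
      rw [Finset.mem_range] at hi ⊢
      omega
    · intro i _ hi
      rw [Finset.mem_range, not_lt] at hi
      have h3 := pr_mem i x
      rw [bot_of_ge n hn i hi, Submodule.mem_bot] at h3
      exact h3
  rw [h2]
  exact h1

theorem pr_zero_mul (x y : DR B R) : pr B R 0 (x * y) = pr B R 0 x * pr B R 0 y := by
  have h := (GradedRing.projZeroRingHom (fun i : ℕ => ⋀[R]^i (Ω[R⁄B]))).map_mul x y
  exact h

/-- the components of a product -/
theorem pr_mul_mem (S : Subring (DR B R)) (x y : DR B R) (hx : ∀ i, pr B R i x ∈ S)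
    (hy : ∀ i, pr B R i y ∈ S) (n : ℕ) : pr B R n (x * y) ∈ S := by
  obtain ⟨N, hN⟩ := sum_pr x
  obtain ⟨N', hN'⟩ := sum_pr y
  have h1 := hN N le_rfl
  have h2 := hN' N' le_rfl
  have h3 : x * y = ∑ i ∈ Finset.range N, ∑ j ∈ Finset.range N', pr B R i x * pr B R j y := by
    rw [← Finset.sum_mul_sum, ← h1, ← h2]
  rw [h3, map_sum]
  refine sum_mem fun i _ => ?_
  rw [map_sum]
  refine sum_mem fun j _ => ?_
  have h4 : pr B R i x * pr B R j y ∈ ⋀[R]^(i + j) (Ω[R⁄B]) :=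
    SetLike.GradedMul.mul_mem (A := fun i : ℕ => ⋀[R]^i (Ω[R⁄B])) (pr_mem i x) (pr_mem j y)
  rw [pr_hom h4]
  split_ifs
  · exact mul_mem (hx i) (hy j)
  · exact zero_mem _

end basic

section lat

variable {V : Type} {B : Type} {R : Type u} [CommRing B] [CommRing R] [Algebra B R]

theorem M_pr (Λ : Lat V B R) (s : Finset V) (x : DR B R) (hx : x ∈ Λ.M s) :
    ∀ i, pr B R i x ∈ Λ.M s := by
  unfold Lat.M at hx
  induction hx using Subring.closure_induction with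
  | mem x hx =>
    intro i
    rcases hx with hx | hx
    · obtain ⟨a, ha, rfl⟩ := hx
      rw [pr_fn]
      split_ifs
      · exact Subring.subset_closure (Or.inl ⟨a, ha, rfl⟩)
      · exact zero_mem _
    · obtain ⟨w, hw, rfl⟩ := hx
      rw [pr_hom (one_mem' w)]
      split_ifs
      · exact Subring.subset_closure (Or.inr ⟨w, hw, rfl⟩)
      · exact zero_mem _
  | zero => intro i; rw [map_zero]; exact zero_mem _
  | one =>
    intro i
    have h : (1 : DR B R) = fn B R 1 := (map_one _).symm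
    rw [h, pr_fn]
    split_ifs
    · rw [map_one]; exact one_mem _
    · exact zero_mem _
  | add x y _ _ h1 h2 => intro i; rw [map_add]; exact add_mem (h1 i) (h2 i)
  | neg x _ h => intro i; rw [map_neg]; exact neg_mem (h i)
  | mul x y _ _ h1 h2 => intro i; exact pr_mul_mem (Λ.M s) x y h1 h2 i

theorem M_pr_zero (Λ : Lat V B R) (s : Finset V) (x : DR B R) (hx : x ∈ Λ.M s) :
    ∃ a ∈ Λ.A s, pr B R 0 x = fn B R a := by
  unfold Lat.M at hx
  induction hx using Subring.closure_induction with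
  | mem x hx =>
    rcases hx with hx | hx
    · obtain ⟨a, ha, rfl⟩ := hx
      exact ⟨a, ha, by rw [pr_fn, if_pos rfl]⟩
    · obtain ⟨w, hw, rfl⟩ := hx
      refine ⟨0, zero_mem _, ?_⟩
      rw [pr_hom (one_mem' w), if_neg (by omega), map_zero]
  | zero => exact ⟨0, zero_mem _, by rw [map_zero, map_zero]⟩
  | one =>
    refine ⟨1, one_mem _, ?_⟩
    have h : (1 : DR B R) = fn B R 1 := (map_one _).symm
    rw [h, pr_fn, if_pos rfl]
  | add x y _ _ h1 h2 =>
    obtain ⟨a, ha, ha'⟩ := h1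
    obtain ⟨b, hb, hb'⟩ := h2
    exact ⟨a + b, add_mem ha hb, by rw [map_add, ha', hb', map_add]⟩
  | neg x _ h =>
    obtain ⟨a, ha, ha'⟩ := h
    exact ⟨-a, neg_mem ha, by rw [map_neg, ha', map_neg]⟩
  | mul x y _ _ h1 h2 =>
    obtain ⟨a, ha, ha'⟩ := h1
    obtain ⟨b, hb, hb'⟩ := h2
    exact ⟨a * b, mul_mem ha hb, by rw [pr_zero_mul, ha', hb', map_mul]⟩

end lat

end GRD_

theorem grd_proof : Stmt_GRD.{u} := by
  refine ⟨?_, ?_, ?_, ?_⟩
  · intro B R _ _ _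
    exact ⟨fun i x => GRD_.pr_dR x i, GRD_.pr_zero_dR, GRD_.pr_zero_fn,
      fun a => by rw [GRD_.pr_fn, if_pos rfl], GRD_.fn_inj, GRD_.pr_pr, GRD_.sum_range⟩
  · intro V B R _ _ _ Λ T s i x hx
    obtain ⟨y, hy, rfl⟩ := hx
    refine ⟨pr B R i y, GRD_.M_pr Λ s y hy i, ?_⟩
    exact (GRD_.pr_fn_mul i (T s) y).symm
  · intro V B R _ _ _ Λ T s x hx
    obtain ⟨y, hy, rfl⟩ := hx
    obtain ⟨a, ha, ha'⟩ := GRD_.M_pr_zero Λ s y hy
    refine ⟨a, ha, ?_⟩
    change pr B R 0 (fn B R (T s) * y) = _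
    rw [GRD_.pr_fn_mul, ha', map_mul]
  · intro V B R _ _ _ Λ T s a ha
    refine ⟨fn B R a, Subring.subset_closure (Or.inl ⟨a, ha, rfl⟩), ?_⟩
    change fn B R (T s) * fn B R a = _
    rw [map_mul]

end

end Pool.Agent.DBX.DIB
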