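import Pool.Agent.DBX.DIB.Stmts
import Pool.Agent.DBX.Lib.Cech

/-!
# DBX, area DIB, module LOP: the operator `L_w` anticommutes with the total differential
-/

set_option autoImplicit false

namespace Pool.Agent.DBX.DIB

open KaehlerDifferential Pool.Agent.DBE Pool.Agent.DBX

universe u

noncomputable section

namespace LOP_

section invo

variable {B : Type} {R : Type u} [CommRing B] [CommRing R] [Algebra B R]

theorem inv_one (w : Ω[R⁄B]) : inv B R (one B R w) = - one B R w := by
  have hw : w ∈ Submodule.span R (Set.range (D B R)) := by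
    rw [KaehlerDifferential.span_range_derivation]; exact Submodule.mem_top
  induction hw using Submodule.span_induction with
  | mem z hz => obtain ⟨a, rfl⟩ := hz; exact inv_dd a
  | zero => simp
  | add z z' _ _ h1 h2 => rw [one, map_add, map_add, h1, h2, neg_add]
  | smul c z _ h1 =>
    rw [one, map_smul, Algebra.smul_def, map_mul, h1]
    change inv B R (fn B R c) * _ = _
    rw [inv_fn, mul_neg]

theorem dR_closed {w : Ω[R⁄B]} (hw : dR B R (one B R w) = 0) (x : DR B R) :
    dR B R (one B R w * x) = - (one B R w * dR B R x) := by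
  rw [dR_mul_closed_left hw, inv_one, neg_mul]

end invo

section comb

variable {V : Type} [LinearOrder V]

theorem min_insert {i : V} {s : Finset V} (h : ∀ j ∈ s, i < j)
    (hs : (insert i s).Nonempty) : (insert i s).min' hs = i := by
  apply le_antisymm
  · exact Finset.min'_le _ _ (Finset.mem_insert_self i s)
  · refine Finset.le_min' _ _ _ (fun j hj => ?_)
    rcases Finset.mem_insert.mp hj with rfl | hj
    · exact le_rfl
    · exact (h j hj).le

theorem notMem {i : V} {s : Finset V} (h : ∀ j ∈ s, i < j) : i ∉ s :=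
  fun hi => lt_irrefl i (h i hi)

theorem exists_min {s : Finset V} (hs : s.Nonempty) :
    ∃ (i : V) (t : Finset V), s = insert i t ∧ ∀ j ∈ t, i < j := by
  refine ⟨s.min' hs, s.erase (s.min' hs), (Finset.insert_erase (s.min'_mem hs)).symm, ?_⟩
  intro j hj
  exact Finset.min'_lt_of_mem_erase_min' s hs hj

theorem sg_insert {i : V} {s : Finset V} (h : ∀ j ∈ s, i < j) :
    DIB.sg (insert i s) = - DIB.sg s := by
  unfold DIB.sg
  rw [Finset.card_insert_of_notMem (notMem h), pow_succ]
  ring

omit [LinearOrder V] in
theorem sg_sq (s : Finset V) : DIB.sg s * DIB.sg s = 1 := by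
  unfold DIB.sg
  rw [← mul_pow]; simp

theorem sg_erase {k : V} {s : Finset V} (hk : k ∈ s) : DIB.sg (s.erase k) = - DIB.sg s := by
  unfold DIB.sg
  have h := Finset.card_erase_add_one hk
  rw [← h, pow_succ _ ((s.erase k).card + 1)]
  ring

end comb

section main

variable {p : ℕ} {V : Type} [LinearOrder V] {B : Type} {R : Type u} [CommRing B] [CommRing R]
  [Algebra B R]

theorem L_empty (F : Frob p V B R) (w : Ω[R⁄B]) (β : Finset V → DR B R) : F.L w β ∅ = 0 := by
  unfold Frob.L
  rw [dif_neg Finset.not_nonempty_empty]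

theorem hm_empty (F : Frob p V B R) (i : V) (w : Ω[R⁄B]) : F.hm i ∅ w = 0 := by
  unfold Frob.hm
  rw [dif_neg Finset.not_nonempty_empty]

theorem hm_insert (F : Frob p V B R) (i j : V) {s : Finset V} (h : ∀ k ∈ s, j < k)
    (w : Ω[R⁄B]) : F.hm i (insert j s) w = F.h i j w := by
  unfold Frob.hm
  rw [dif_pos (Finset.insert_nonempty j s), min_insert h]

theorem L_insert (F : Frob p V B R) (w : Ω[R⁄B]) (β : Finset V → DR B R) {i : V} {s : Finset V}
    (h : ∀ j ∈ s, i < j) :
    F.L w β (insert i s) = DIB.sg (insert i s) • (one B R (F.θ i w) * β (insert i s)) +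
      fn B R (F.hm i s w) * β s := by
  unfold Frob.L
  rw [dif_pos (Finset.insert_nonempty i s), min_insert h, Finset.erase_insert (notMem h)]

/-- `hm i (s' ∪ j) - h i j = hm j s'` up to the case `s' = ∅` -/
theorem hm_step (F : Frob p V B R) (w : Ω[R⁄B]) (β : Finset V → DR B R) (h0 : β ∅ = 0) (i j : V)
    (s : Finset V) :
    fn B R (F.hm i s w) * β s = fn B R (F.h i j w) * β s + fn B R (F.hm j s w) * β s := by
  rcases s.eq_empty_or_nonempty with rfl | hs
  · rw [h0, mul_zero, mul_zero, mul_zero, add_zero]
  · unfold Frob.hm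
    rw [dif_pos hs, dif_pos hs, ← add_mul, ← map_add, F.h_add]

/-- the sum in the Čech differential of `L_w β` -/
theorem cd_L (F : Frob p V B R) (w : Ω[R⁄B]) (β : Finset V → DR B R) (h0 : β ∅ = 0) (i j : V)
    {s : Finset V} (hj : ∀ k ∈ s, j < k) (hi : ∀ k ∈ insert j s, i < k) :
    cd (fun t => F.L w β (insert i t)) (insert j s) =
      - (DIB.sg (insert i (insert j s)) •
        (one B R (F.θ i w) * cd (fun t => β (insert i t)) (insert j s))) +
      fn B R (F.h i j w) * cd β (insert j s) + fn B R (F.hm j s w) * β s := by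
  have hjs : j ∉ s := notMem hj
  have e1 : ∀ v ∈ insert j s, sgn v (insert j s) • F.L w β (insert i ((insert j s).erase v)) =
      - (DIB.sg (insert i (insert j s)) • (one B R (F.θ i w) *
        (sgn v (insert j s) • β (insert i ((insert j s).erase v))))) +
      (fn B R (F.h i j w) * (sgn v (insert j s) • β ((insert j s).erase v)) +
        (if v = j then fn B R (F.hm j s w) * β s else 0)) := by
    intro v hv
    have hlt : ∀ k ∈ (insert j s).erase v, i < k := fun k hk => hi k (Finset.mem_of_mem_erase hk)
    have e2 : DIB.sg (insert i ((insert j s).erase v)) = - DIB.sg (insert i (insert j s)) := by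
      rw [sg_insert hlt, sg_insert hi, sg_erase hv]
    rw [L_insert F w β hlt, e2]
    by_cases hvj : v = j
    · subst hvj
      rw [if_pos rfl, Finset.erase_insert hjs, hm_step F w β h0 i v s]
      have e3 : sgn v (insert v s) = 1 := by
        unfold sgn
        have : (insert v s).filter (fun w => w < v) = ∅ := by
          rw [Finset.filter_eq_empty_iff]
          intro k hk
          rcases Finset.mem_insert.mp hk with rfl | hk
          · exact lt_irrefl _
          · exact not_lt.mpr (hj k hk).le
        rw [this]; simp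
      rw [e3, one_smul, one_smul, one_smul, neg_smul]
    · rw [if_neg hvj, add_zero]
      have e4 : (insert j s).erase v = insert j (s.erase v) :=
        Finset.erase_insert_of_ne (Ne.symm hvj)
      have e5 : F.hm i ((insert j s).erase v) w = F.h i j w := by
        rw [e4]
        exact hm_insert F i j (fun k hk => hj k (Finset.mem_of_mem_erase hk)) w
      rw [e5, smul_add, neg_smul, smul_neg, mul_smul_comm, mul_smul_comm, smul_comm]
  rw [cd_sgn, Finset.sum_congr rfl e1, Finset.sum_add_distrib, Finset.sum_add_distrib,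
    Finset.sum_neg_distrib, ← Finset.smul_sum, ← Finset.mul_sum, ← Finset.mul_sum,
    Finset.sum_ite_eq' (insert j s) j, if_pos (Finset.mem_insert_self j s), ← cd_sgn β,
    cd_sgn (fun t => β (insert i t)) (insert j s), add_assoc]

end main

end LOP_

open LOP_ in
theorem lop_proof (hCDI : Stmt_CDI.{u}) : Stmt_LOP.{u} := by
  intro p V _ B R _ _ _ F w β h0
  refine ⟨L_empty F w β, ?_⟩
  funext u
  rw [Pi.neg_apply]
  rcases u.eq_empty_or_nonempty with rfl | hu
  · rw [L_empty]
    unfold DD
    rw [cd_empty, L_empty, map_zero, smul_zero, add_zero, neg_zero]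
  obtain ⟨i, s, rfl, hi⟩ := exists_min hu
  have hc : ∀ γ : Finset V → DR B R, cd γ (insert i s) = γ s - cd (fun t => γ (insert i t)) s :=
    fun γ => hCDI.1 V (DR B R) γ i s hi
  rw [L_insert F w (DD B R β) hi]
  unfold DD
  rw [hc (F.L w β), hc β, L_insert F w β hi]
  rcases s.eq_empty_or_nonempty with rfl | hs
  · rw [L_empty, hm_empty, map_zero, zero_mul, zero_mul, add_zero, add_zero, cd_empty, cd_empty,
      sub_zero, zero_add, h0, sub_zero, zero_add]
    have e : (insert i (∅ : Finset V)) = {i} := rfl
    rw [map_zsmul, dR_closed (F.θ_closed i w), mul_smul_comm, smul_neg, smul_neg]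
  obtain ⟨j, s', rfl, hj⟩ := exists_min hs
  rw [hm_insert F i j hj w, cd_L F w β h0 i j hj hi, L_insert F w β hj]
  have e1 : DIB.sg (insert j s') = - DIB.sg (insert i (insert j s')) := by
    rw [sg_insert hi, neg_neg]
  have e2 := sg_sq (insert i (insert j s'))
  rw [e1]
  generalize DIB.sg (insert i (insert j s')) = e at e1 e2 ⊢
  have e3 : one B R (F.θ j w) = one B R (F.θ i w) + DBE.dd B R (F.h i j w) := by
    rw [dd_def, F.h_d i j w, one, one, map_sub]
    abel
  rw [map_add, map_zsmul, dR_closed (F.θ_closed i w), dR_fn_mul, e3]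
  generalize one B R (F.θ i w) = a
  generalize DBE.dd B R (F.h i j w) = d
  generalize fn B R (F.h i j w) = f
  generalize fn B R (F.hm j s' w) * β s' = g
  generalize cd (fun t => β (insert i t)) (insert j s') = c
  generalize cd β (insert j s') = c'
  generalize dR B R (β (insert i (insert j s'))) = x
  generalize dR B R (β (insert j s')) = y
  generalize β (insert j s') = b
  have e4 : ∀ z : DR B R, e • e • z = z := fun z => by rw [smul_smul, e2, one_smul]
  simp only [mul_add, mul_sub, add_mul, smul_add, smul_sub, smul_neg, neg_smul, mul_smul_comm,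
    mul_neg, e4]
  abel

end

end Pool.Agent.DBX.DIB
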