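import Pool.Agent.DBX.DIB.Stmts
import Pool.Agent.DBX.Cd

/-!
# DBX, area DIB, module PCH: the map `Φ` is a chain map.
-/

set_option autoImplicit false

namespace Pool.Agent.DBX.DIB

open KaehlerDifferential Pool.Agent.DBE Pool.Agent.DBX

universe u

namespace PCH_

noncomputable section

theorem cd_congr {V : Type*} [LinearOrder V] {G : Type*} [AddCommGroup G] {x y : Finset V → G}
    {s : Finset V} (h : ∀ t ⊆ s, x t = y t) : cd x s = cd y s := by
  rw [cd_apply, cd_apply]
  exact Finset.sum_congr rfl fun v _ => by rw [h _ (Finset.erase_subset v s)]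

theorem sg_insert {V : Type} [LinearOrder V] {i : V} {s : Finset V} (h : ∀ j ∈ s, i < j) :
    sg (insert i s) = - sg s := by
  unfold sg
  rw [Finset.card_insert_of_notMem (fun hi => lt_irrefl _ (h i hi)), pow_succ _ (s.card + 1)]
  ring

variable {p : ℕ} [Fact p.Prime] {V : Type} [LinearOrder V] {B : Type} {R : Type u} [CommRing B]
  [CommRing R] [Algebra B R] [CharP R p]

theorem Phi_congr (F : Frob p V B R) {x y : Finset V → DR B R} {s : Finset V}
    (h : ∀ t ⊆ s, x t = y t) : F.Phi x s = F.Phi y s := by
  unfold Frob.Phi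
  exact Finset.sum_congr rfl fun m _ => by rw [h _ (Finset.filter_subset _ _)]

theorem Phi_empty (F : Frob p V B R) (w : Finset V → DR B R) : F.Phi w ∅ = 0 := by
  unfold Frob.Phi
  rw [Finset.sum_empty]

theorem Phi_add (F : Frob p V B R) (w w' : Finset V → DR B R) :
    F.Phi (w + w') = F.Phi w + F.Phi w' := by
  funext s
  change F.Phi (w + w') s = F.Phi w s + F.Phi w' s
  unfold Frob.Phi
  rw [← Finset.sum_add_distrib]
  refine Finset.sum_congr rfl fun m _ => ?_
  rw [Pi.add_apply, map_add]
  rfl

theorem Phi_neg (F : Frob p V B R) (w : Finset V → DR B R) : F.Phi (-w) = - F.Phi w := by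
  have h := Phi_add F w (-w)
  have h0 : F.Phi (0 : Finset V → DR B R) = 0 := by
    have := Phi_add F (0 : Finset V → DR B R) 0
    rw [add_zero] at this
    exact (left_eq_add.1 this)
  rw [add_neg_cancel, h0] at h
  exact (neg_eq_of_add_eq_zero_right h.symm).symm

theorem Phi_insert (F : Frob p V B R) (w : Finset V → DR B R) {i : V} {s : Finset V}
    (h : ∀ j ∈ s, i < j) :
    F.Phi w (insert i s) = F.phi (w {i}) (insert i s) + F.Phi (fun t => w (insert i t)) s := by
  have hf1 : (insert i s).filter (· ≤ i) = {i} := by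
    ext j
    simp only [Finset.mem_filter, Finset.mem_insert, Finset.mem_singleton]
    constructor
    · rintro ⟨rfl | hj, h2⟩
      · rfl
      · exact absurd (h j hj) (not_lt.2 h2)
    · rintro rfl
      exact ⟨Or.inl rfl, le_rfl⟩
  have hf2 : (insert i s).filter (i ≤ ·) = insert i s := by
    ext j
    simp only [Finset.mem_filter, Finset.mem_insert]
    constructor
    · rintro ⟨h1, _⟩; exact h1
    · intro h1
      refine ⟨h1, ?_⟩
      rcases h1 with rfl | h1
      · exact le_rfl
      · exact (h j h1).le
  unfold Frob.Phi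
  rw [Finset.sum_insert (fun hi => lt_irrefl _ (h i hi)), hf1, hf2]
  refine congrArg₂ (· + ·) rfl ?_
  refine Finset.sum_congr rfl fun m hm => ?_
  rw [Finset.filter_insert, if_pos (h m hm).le, Finset.filter_insert, if_neg (not_le.2 (h m hm))]

theorem main (hCDI : Stmt_CDI.{u}) (hDDD : Stmt_DDD.{u}) (hPHI : Stmt_PHI.{u})
    (F : Frob p V B R) (u : Finset V) : ∀ w : Finset V → DR B R,
    DD B R (F.Phi w) u = F.Phi (cd w) u - F.phi (w ∅) u := by
  obtain ⟨-, -, hphi⟩ := hPHI p V B R F
  obtain ⟨-, hadd⟩ := hDDD V B R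
  have hcdi := hCDI.1
  induction u using Finset.induction_on_min with
  | empty =>
    intro w
    rw [Phi_empty, (hphi _).1, sub_zero]
    change cd (F.Phi w) ∅ + sg (∅ : Finset V) • dR B R (F.Phi w ∅) = 0
    rw [cd_empty, Phi_empty, map_zero, smul_zero, add_zero]
  | insert i s hi ih =>
    intro w
    have hl : DD B R (F.Phi w) (insert i s) =
        F.Phi w s - F.phi (w {i}) s - DD B R (F.Phi fun t => w (insert i t)) s := by
      have e1 := hcdi V (DR B R) (F.Phi w) i s hi
      have e2 : cd (fun t => F.Phi w (insert i t)) s =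
          cd (fun t => F.phi (w {i}) (insert i t)) s +
            cd (F.Phi fun t => w (insert i t)) s := by
        rw [← Pi.add_apply, ← cd_add]
        refine cd_congr fun t ht => ?_
        exact Phi_insert F w fun j hj => hi j (ht hj)
      have e3 := congrFun (hphi (w {i})).2 (insert i s)
      change cd (F.phi (w {i})) (insert i s) + sg (insert i s) •
        dR B R (F.phi (w {i}) (insert i s)) = 0 at e3
      rw [hcdi V (DR B R) (F.phi (w {i})) i s hi] at e3
      change cd (F.Phi w) (insert i s) + sg (insert i s) • dR B R (F.Phi w (insert i s)) =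
        F.Phi w s - F.phi (w {i}) s -
          (cd (F.Phi fun t => w (insert i t)) s + sg s • dR B R (F.Phi (fun t => w (insert i t)) s))
      rw [e1, e2, Phi_insert F w hi, map_add, smul_add]
      rw [sg_insert hi] at e3 ⊢
      have e4 : -cd (fun t => F.phi (w {i}) (insert i t)) s +
          -sg s • dR B R (F.phi (w {i}) (insert i s)) = - F.phi (w {i}) s := by
        rw [eq_neg_iff_add_eq_zero, ← e3]
        abel
      rw [neg_smul (sg s) (dR B R (F.Phi (fun t => w (insert i t)) s))]
      calc _ = F.Phi w s + (-cd (fun t => F.phi (w {i}) (insert i t)) s +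
          -sg s • dR B R (F.phi (w {i}) (insert i s))) - cd (F.Phi fun t => w (insert i t)) s -
          sg s • dR B R (F.Phi (fun t => w (insert i t)) s) := by abel
        _ = _ := by rw [e4]; abel
    rw [hl, ih]
    have hr : F.Phi (cd w) (insert i s) = F.phi (w ∅) (insert i s) +
        (F.Phi w s - F.Phi (cd fun t => w (insert i t)) s) := by
      rw [Phi_insert F (cd w) hi, cd_singleton]
      congr 1
      have e5 : F.Phi (fun t => cd w (insert i t)) s =
          F.Phi (w + -(cd fun t => w (insert i t))) s := by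
        refine Phi_congr F fun t ht => ?_
        rw [hcdi V (DR B R) w i t fun j hj => hi j (ht hj)]
        exact sub_eq_add_neg _ _
      rw [e5, Phi_add, Phi_neg]
      exact (sub_eq_add_neg _ _).symm
    rw [hr]
    have e6 : w (insert i ∅) = w {i} := rfl
    rw [e6]
    abel

end

end PCH_

open PCH_ in
theorem pch_proof (hCDI : Stmt_CDI.{u}) (hDDD : Stmt_DDD.{u}) (hPHI : Stmt_PHI.{u}) :
    Stmt_PCH.{u} := by
  intro p _ V _ B R _ _ _ _ F w w'
  refine ⟨Phi_empty F w, Phi_add F w w', fun h0 => ?_⟩
  funext u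
  rw [main hCDI hDDD hPHI F u w, h0, map_zero]
  exact sub_zero _

end Pool.Agent.DBX.DIB
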