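import Pool.Agent.DBX.DIB.Stmts
import Pool.Agent.DBX.Cd

/-!
# DBX, area DIB, module PHI: the map `φ`.
-/

set_option autoImplicit false

namespace Pool.Agent.DBX.DIB

open KaehlerDifferential Pool.Agent.DBE Pool.Agent.DBX

universe u

namespace PHI_

noncomputable section

section gen

variable {p : ℕ} [Fact p.Prime] {V : Type} [LinearOrder V] {B : Type} {R : Type u} [CommRing B]
  [CommRing R] [Algebra B R] [CharP R p]

theorem prod_apply (F : Frob p V B R) (l : List (Ω[R⁄B])) (β : FN V B R) :
    let _ := frMod p V B R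
    (l.map F.LL).prod β = l.foldr F.L β := by
  let _ := frMod p V B R
  induction l with
  | nil => rfl
  | cons a l ih =>
    rw [List.map_cons, List.prod_cons, List.foldr_cons]
    change F.LL a ((l.map F.LL).prod β) = _
    rw [ih]
    rfl

theorem mult_apply (F : Frob p V B R) (i : ℕ) (w : Fin i → Ω[R⁄B]) :
    F.mult i w = (List.ofFn w).foldr F.L (Frob.uno V B R) := by
  let _ := frMod p V B R
  have h : F.mult i w = (List.ofFn fun k => F.LL (w k)).prod (Frob.uno V B R) := by
    unfold Frob.mult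
    rfl
  rw [h, ← prod_apply F (List.ofFn w) (Frob.uno V B R), List.map_ofFn]
  rfl

theorem phi_smul (F : Frob p V B R) (a : R) (x : DR B R) (s : Finset V) :
    F.phi (fn B R a * x) s = fn B R (a ^ p) * F.phi x s := by
  let _ := frMod p V B R
  let ph : DR B R →ₗ[R] FN V B R :=
    ExteriorAlgebra.liftAlternating (R := R) (M := Ω[R⁄B]) (N := FN V B R) F.altm
  have h : ph (fn B R a * x) = a • ph x := by
    rw [← Algebra.smul_def]
    exact ph.map_smul a x
  have h1 : (ph (fn B R a * x)) s = (a • ph x) s := by rw [h]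
  exact h1.trans (Frob.smul_def' a (ph x) s)

theorem phi_iota (F : Frob p V B R) (i : ℕ) (w : Fin i → Ω[R⁄B]) :
    F.phi (ExteriorAlgebra.ιMulti R i w) =
      Frob.cf p i • ∑ σ : Equiv.Perm (Fin i), Equiv.Perm.sign σ •
        (List.ofFn fun k => w (σ k)).foldr F.L (Frob.uno V B R) := by
  let _ := frMod p V B R
  have h1 : F.phi (ExteriorAlgebra.ιMulti R i w) = F.altm i w :=
    ExteriorAlgebra.liftAlternating_apply_ιMulti (R := R) (M := Ω[R⁄B]) (N := FN V B R) F.altm w
  have h2 : F.altm i w = Frob.cf p i • (MultilinearMap.alternatization (F.mult i) w) := rfl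
  rw [h1, h2, MultilinearMap.alternatization_apply]
  congr 1
  refine Finset.sum_congr rfl fun σ _ => ?_
  congr 1
  exact mult_apply F i fun k => w (σ k)

end gen

section uno

variable {V : Type} [LinearOrder V] {B : Type} {R : Type u} [CommRing B]
  [CommRing R] [Algebra B R]

theorem uno_eq : (Frob.uno V B R : Finset V → DR B R) =
    cd (fun s : Finset V => if s = ∅ then (1 : DR B R) else 0) := by
  funext s
  unfold Frob.uno
  split_ifs with h
  · obtain ⟨v, rfl⟩ := Finset.card_eq_one.1 h
    rw [cd_singleton, if_pos rfl]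
  · rw [cd_apply]
    symm
    refine Finset.sum_eq_zero fun v hv => ?_
    rw [if_neg, smul_zero]
    intro h0
    apply h
    have := Finset.card_erase_add_one hv
    rw [h0, Finset.card_empty] at this
    omega

theorem DD_uno : DD B R (Frob.uno V B R) = 0 := by
  funext s
  have h1 : cd (Frob.uno V B R : Finset V → DR B R) = 0 := by rw [uno_eq, cd_cd]
  have h2 : dR B R ((Frob.uno V B R : Finset V → DR B R) s) = 0 := by
    unfold Frob.uno
    split_ifs
    · exact dR_one
    · exact map_zero _
  change cd (Frob.uno V B R : Finset V → DR B R) s + sg s • dR B R ((Frob.uno V B R :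
    Finset V → DR B R) s) = 0
  rw [h1, h2, smul_zero]
  exact add_zero _

omit [LinearOrder V] in
theorem uno_empty : (Frob.uno V B R : Finset V → DR B R) ∅ = 0 := by
  unfold Frob.uno
  rw [if_neg]
  simp

theorem L_zero {p : ℕ} (F : Frob p V B R) (w : Ω[R⁄B]) : F.L w (0 : Finset V → DR B R) = 0 := by
  funext s
  unfold Frob.L
  split_ifs
  · simp
  · rfl

theorem foldr_closed (hLOP : Stmt_LOP.{u}) {p : ℕ} (F : Frob p V B R) (l : List (Ω[R⁄B])) :
    (l.foldr F.L (Frob.uno V B R) : Finset V → DR B R) ∅ = 0 ∧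
      DD B R (l.foldr F.L (Frob.uno V B R) : Finset V → DR B R) = 0 := by
  induction l with
  | nil => exact ⟨uno_empty, DD_uno⟩
  | cons w l ih =>
    have h := hLOP p V B R F w (l.foldr F.L (Frob.uno V B R)) ih.1
    refine ⟨h.1, ?_⟩
    refine h.2.trans ?_
    rw [ih.2, L_zero, neg_zero]

end uno

end

end PHI_

open PHI_ in
theorem phi_proof (_hCDI : Stmt_CDI.{u}) (hDDD : Stmt_DDD.{u}) (hLOP : Stmt_LOP.{u}) :
    Stmt_PHI.{u} := by
  intro p _ V _ B R _ _ _ _ F
  refine ⟨phi_iota F, phi_smul F, ?_⟩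
  obtain ⟨-, hadd⟩ := hDDD V B R
  let DH : (Finset V → DR B R) →+ (Finset V → DR B R) :=
    AddMonoidHom.mk' (DD B R) hadd
  have hDH : ∀ β, DH β = DD B R β := fun _ => rfl
  let E : (Finset V → DR B R) →+ DR B R := Pi.evalAddMonoidHom _ (∅ : Finset V)
  have hE : ∀ β : Finset V → DR B R, E β = β ∅ := fun _ => rfl
  -- basic closedness
  have key : ∀ (i : ℕ) (w : Fin i → Ω[R⁄B]),
      F.phi (ExteriorAlgebra.ιMulti R i w) ∅ = 0 ∧
        DD B R (F.phi (ExteriorAlgebra.ιMulti R i w)) = 0 := by
    intro i w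
    rw [phi_iota F i w]
    have hz : ∀ (G : Type u) [AddCommGroup G] (T : (Finset V → DR B R) →+ G),
        (∀ l : List (Ω[R⁄B]), T (l.foldr F.L (Frob.uno V B R)) = 0) →
        T (Frob.cf p i • ∑ σ : Equiv.Perm (Fin i), Equiv.Perm.sign σ •
          (List.ofFn fun k => w (σ k)).foldr F.L (Frob.uno V B R)) = 0 := by
      intro G _ T hT
      rw [map_nsmul, map_sum]
      rw [Finset.sum_eq_zero, smul_zero]
      intro σ _
      rcases Int.units_eq_one_or (Equiv.Perm.sign σ) with h | h
      · rw [h, one_smul]; exact hT _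
      · rw [h, Units.neg_smul, one_smul, map_neg, hT, neg_zero]
    constructor
    · exact hz (DR B R) E fun l => (foldr_closed hLOP F l).1
    · exact hz (Finset V → DR B R) DH fun l => (foldr_closed hLOP F l).2
  intro x
  have hx : x ∈ Submodule.span R (Set.range fun x : Σ n, (Fin n → Ω[R⁄B]) =>
      ExteriorAlgebra.ιMulti R x.1 x.2) := by
    rw [ExteriorAlgebra.ιMulti_span]
    exact Submodule.mem_top
  induction hx using Submodule.span_induction with
  | mem z hz => obtain ⟨⟨i, w⟩, rfl⟩ := hz; exact key i w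
  | zero =>
    rw [map_zero]
    exact ⟨rfl, by rw [← hDH, map_zero]⟩
  | add z z' _ _ h1 h2 =>
    rw [map_add]
    refine ⟨?_, ?_⟩
    · change F.phi z ∅ + F.phi z' ∅ = 0
      rw [h1.1, h2.1, add_zero]
    · rw [hadd, h1.2, h2.2, add_zero]
  | smul c z _ h1 =>
    rw [Algebra.smul_def]
    refine ⟨?_, ?_⟩
    · rw [phi_smul, h1.1, mul_zero]
    · have h2 : F.phi (fn B R c * z) = fun s => fn B R (c ^ p) * F.phi z s := by
        funext s
        exact phi_smul F c z s
      rw [h2]
      funext s
      have h3 := congrFun h1.2 s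
      change cd (F.phi z) s + sg s • dR B R (F.phi z s) = 0 at h3
      change cd (fun s => fn B R (c ^ p) * F.phi z s) s +
        sg s • dR B R (fn B R (c ^ p) * F.phi z s) = 0
      have h4 : cd (fun s => fn B R (c ^ p) * F.phi z s) s = fn B R (c ^ p) * cd (F.phi z) s :=
        congrFun (cd_map (AddMonoidHom.mulLeft (fn B R (c ^ p))) (F.phi z)) s
      rw [dR_pow_mul p, h4, ← mul_smul_comm, ← mul_add, h3, mul_zero]

end Pool.Agent.DBX.DIB
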