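import Pool.Agent.DBX.DIB.Stmts
import Pool.Agent.DBX.Lib.Cech

/-!
# DBX, area DIB, module PHV: the value of `φ` at a vertex
-/

set_option autoImplicit false

namespace Pool.Agent.DBX.DIB

open KaehlerDifferential Pool.Agent.DBE Pool.Agent.DBX

universe u

noncomputable section

namespace PHV_

variable {p : ℕ} [Fact p.Prime] {V : Type} [LinearOrder V] {B : Type} {R : Type u} [CommRing B]
    [CommRing R] [Algebra B R] [CharP R p] (F : Frob p V B R)

theorem fn_mul_one (a : R) (w : Ω[R⁄B]) : fn B R a * one B R w = one B R (a • w) := by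
  rw [one, one, map_smul, Algebra.smul_def]

theorem lam_fn (v : V) (a : R) : F.Lam v (fn B R a) = fn B R (a ^ p) := by
  rw [Frob.Lam, DRData.hom_fn]
  change fn B R (frobenius R p a) = _
  rw [frobenius_def]

theorem lam_one (v : V) (w : Ω[R⁄B]) : F.Lam v (one B R w) = one B R (F.θ v w) := by
  have hw : w ∈ Submodule.span R (Set.range (D B R)) := by
    rw [KaehlerDifferential.span_range_derivation]; exact Submodule.mem_top
  induction hw using Submodule.span_induction with
  | mem z hz =>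
    obtain ⟨a, rfl⟩ := hz
    exact DRData.hom_dd (F.lamData v) a
  | zero => rw [one, map_zero, map_zero, map_zero, one, map_zero]
  | add z z' _ _ h1 h2 =>
    rw [one, map_add, map_add, map_add, one, map_add]
    exact congrArg₂ _ h1 h2
  | smul c z _ h1 =>
    rw [← fn_mul_one, map_mul, h1, lam_fn, fn_mul_one, F.θ_smul]

theorem dR_lam (v : V) (x : DR B R) : dR B R (F.Lam v x) = 0 := by
  induction x using DR_induction with
  | hf a => rw [lam_fn, dR_fn, dd_pow_char p]
  | hm a x h =>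
    rw [map_mul]
    have h1 : F.Lam v (Pool.Agent.DBE.dd B R a) = one B R (F.θ v (D B R a)) := lam_one F v _
    rw [h1, dR_mul_closed_left (F.θ_closed v _), h, mul_zero]
  | hs a x h => rw [map_mul, lam_fn, dR_pow_mul, h, mul_zero]
  | ha x y h1 h2 => rw [map_add, map_add, h1, h2, add_zero]

theorem L_vertex (w : Ω[R⁄B]) (β : Finset V → DR B R) (v : V) :
    F.L w β {v} = one B R (F.θ v w) * β {v} := by
  unfold Frob.L
  rw [dif_pos (Finset.singleton_nonempty v)]
  have h1 : ({v} : Finset V).min' (Finset.singleton_nonempty v) = v := Finset.min'_singleton v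
  have h2 : ({v} : Finset V).erase v = ∅ := by simp
  rw [h1, h2]
  unfold Frob.hm sg
  simp

theorem foldr_vertex (l : List (Ω[R⁄B])) (v : V) :
    l.foldr F.L (Frob.uno V B R) {v} = (l.map fun w => one B R (F.θ v w)).prod := by
  induction l with
  | nil =>
    change (if ({v} : Finset V).card = 1 then (1 : DR B R) else 0) = 1
    rw [Finset.card_singleton, if_pos rfl]
  | cons w l ih =>
    change F.L w (l.foldr F.L (Frob.uno V B R)) {v} = _
    rw [L_vertex, ih, List.map_cons, List.prod_cons]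

theorem lam_iotaMulti (v : V) (i : ℕ) (w : Fin i → Ω[R⁄B]) :
    F.Lam v (ExteriorAlgebra.ιMulti R i w) =
      ExteriorAlgebra.ιMulti R i (fun k => F.θ v (w k)) := by
  rw [ExteriorAlgebra.ιMulti_apply, ExteriorAlgebra.ιMulti_apply, map_list_prod, List.map_ofFn]
  congr 2
  funext k
  exact lam_one F v (w k)

omit [LinearOrder V] in
theorem cf_fact {i : ℕ} (hi : i < p) : ((Frob.cf p i * i.factorial : ℕ) : R) = 1 := by
  have hp : p.Prime := Fact.out
  have h1 : ((Frob.cf p i * i.factorial : ℕ) : ZMod p) = 1 := by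
    rw [Nat.cast_mul, Frob.cf, ZMod.natCast_val, ZMod.cast_id', id]
    apply inv_mul_cancel₀
    rw [Ne, ZMod.natCast_eq_zero_iff, hp.dvd_factorial]
    exact not_le.2 hi
  have h2 : ((Frob.cf p i * i.factorial : ℕ) : ZMod p) = ((1 : ℕ) : ZMod p) := by
    rw [h1, Nat.cast_one]
  rw [ZMod.natCast_eq_natCast_iff] at h2
  have h3 := (CharP.natCast_eq_natCast R p).2 h2
  rw [h3, Nat.cast_one]

theorem phi_iotaMulti (hPHI : Stmt_PHI.{u}) (v : V) (i : ℕ) (hi : i < p) (w : Fin i → Ω[R⁄B]) :
    F.phi (ExteriorAlgebra.ιMulti R i w) {v} =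
      ExteriorAlgebra.ιMulti R i (fun k => F.θ v (w k)) := by
  rw [(hPHI p V B R F).1 i w]
  set X := ExteriorAlgebra.ιMulti R i (fun k => F.θ v (w k)) with hX
  have h1 : ∀ σ : Equiv.Perm (Fin i),
      (Equiv.Perm.sign σ • (List.ofFn fun k => w (σ k)).foldr F.L (Frob.uno V B R)) {v} =
        X := by
    intro σ
    have e : (Equiv.Perm.sign σ • (List.ofFn fun k => w (σ k)).foldr F.L (Frob.uno V B R)) {v} =
      Equiv.Perm.sign σ • ((List.ofFn fun k => w (σ k)).foldr F.L (Frob.uno V B R) {v}) := rfl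
    rw [e, foldr_vertex, List.map_ofFn]
    have e2 : (List.ofFn ((fun w => one B R (F.θ v w)) ∘ fun k => w (σ k))).prod =
        ExteriorAlgebra.ιMulti R i ((fun k => F.θ v (w k)) ∘ σ) := by
      rw [ExteriorAlgebra.ιMulti_apply]
      rfl
    rw [e2, AlternatingMap.map_perm, smul_smul]
    have e3 : Equiv.Perm.sign σ * Equiv.Perm.sign σ = 1 := Int.units_mul_self _
    rw [e3, one_smul]
  have h2 : (Frob.cf p i • ∑ σ : Equiv.Perm (Fin i), Equiv.Perm.sign σ •
        (List.ofFn fun k => w (σ k)).foldr F.L (Frob.uno V B R)) {v} =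
      Frob.cf p i • ∑ σ : Equiv.Perm (Fin i), (Equiv.Perm.sign σ •
        (List.ofFn fun k => w (σ k)).foldr F.L (Frob.uno V B R)) {v} := by
    rw [← Finset.sum_apply]
    rfl
  rw [h2, Finset.sum_congr rfl (fun σ _ => h1 σ), Finset.sum_const, Finset.card_univ,
    Fintype.card_perm, Fintype.card_fin, smul_smul]
  have h3 : (Frob.cf p i * i.factorial) • X = ((Frob.cf p i * i.factorial : ℕ) : R) • X := by
    rw [Nat.cast_smul_eq_nsmul]
  rw [h3, cf_fact hi, one_smul]

omit [LinearOrder V] [CharP R p] [Fact p.Prime] in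
theorem iotaMulti_ge (h0 : ∀ w : Fin p → Ω[R⁄B], ExteriorAlgebra.ιMulti R p w = 0) (j : ℕ)
    (w : Fin (p + j) → Ω[R⁄B]) : ExteriorAlgebra.ιMulti R (p + j) w = 0 := by
  rw [ExteriorAlgebra.ιMulti_apply, List.ofFn_add, List.prod_append]
  have := h0 (fun k => w (Fin.castLE (by omega) k))
  rw [ExteriorAlgebra.ιMulti_apply] at this
  rw [this, zero_mul]

theorem phi_vertex (hPHI : Stmt_PHI.{u})
    (h0 : ∀ w : Fin p → Ω[R⁄B], ExteriorAlgebra.ιMulti R p w = 0)
    (x : DR B R) (v : V) : F.phi x {v} = F.Lam v x := by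
  have hx : x ∈ Submodule.span R (Set.range fun y : Σ n, (Fin n → Ω[R⁄B]) =>
      ExteriorAlgebra.ιMulti R y.1 y.2) := by
    rw [ExteriorAlgebra.ιMulti_span]
    exact Submodule.mem_top
  induction hx using Submodule.span_induction with
  | mem z hz =>
    obtain ⟨⟨i, w⟩, rfl⟩ := hz
    change F.phi (ExteriorAlgebra.ιMulti R i w) {v} = F.Lam v (ExteriorAlgebra.ιMulti R i w)
    rcases lt_or_ge i p with hi | hi
    · rw [phi_iotaMulti F hPHI v i hi w, lam_iotaMulti]
    · obtain ⟨j, rfl⟩ := Nat.exists_eq_add_of_le hi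
      rw [iotaMulti_ge h0, map_zero, map_zero]
      rfl
  | zero =>
    rw [map_zero, map_zero]
    rfl
  | add z z' _ _ h1 h2 =>
    rw [map_add, map_add, ← h1, ← h2]
    rfl
  | smul c z _ h1 =>
    rw [Algebra.smul_def, (hPHI p V B R F).2.1, map_mul, h1, lam_fn]

end PHV_

theorem phv_proof (hPHI : Stmt_PHI.{u}) : Stmt_PHV.{u} := by
  intro p _ V _ B R _ _ _ _ F
  exact ⟨PHV_.lam_one F, PHV_.lam_fn F, PHV_.dR_lam F,
    fun h0 x v => PHV_.phi_vertex F hPHI h0 x v⟩

end

end Pool.Agent.DBX.DIB
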