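import Pool.Agent.DBX.DIB.Stmts
import Pool.Agent.DBX.Lib.Cech

/-!
# DBX, area DIB, module PME: `φ`, `Φ` and the differentials respect the lattices
-/

set_option autoImplicit false
set_option linter.unusedSectionVars false

namespace Pool.Agent.DBX.DIB

open KaehlerDifferential Pool.Agent.DBE Pool.Agent.DBX

universe u

noncomputable section

namespace PME_

variable {p : ℕ} [Fact p.Prime] {V : Type} [LinearOrder V] {B : Type} {R : Type u} [CommRing B]
    [CommRing R] [Algebra B R] [CharP R p] {F : Frob p V B R} {Λ : Lat V B R}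
    {T T' : Finset V → R}

theorem fn_mem {s : Finset V} {a : R} (ha : a ∈ Λ.A s) : fn B R a ∈ Λ.M s :=
  Subring.subset_closure (Or.inl ⟨a, ha, rfl⟩)

theorem one_mem' {s : Finset V} {w : Ω[R⁄B]} (hw : w ∈ Λ.W s) : one B R w ∈ Λ.M s :=
  Subring.subset_closure (Or.inr ⟨w, hw, rfl⟩)

/-- the generators of `M s` as a group -/
def gens (Λ : Lat V B R) (s : Finset V) : Set (DR B R) :=
  {x | ∃ a ∈ Λ.A s, ∃ l : List (Ω[R⁄B]), (∀ w ∈ l, w ∈ Λ.W s) ∧
    x = fn B R a * (l.map (one B R)).prod}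

theorem gens_mul {s : Finset V} {x y : DR B R} (hx : x ∈ AddSubgroup.closure (gens Λ s))
    (hy : y ∈ AddSubgroup.closure (gens Λ s)) : x * y ∈ AddSubgroup.closure (gens Λ s) := by
  induction hx using AddSubgroup.closure_induction with
  | mem x hx =>
    induction hy using AddSubgroup.closure_induction with
    | mem y hy =>
      obtain ⟨a, ha, l, hl, rfl⟩ := hx
      obtain ⟨b, hb, l', hl', rfl⟩ := hy
      apply AddSubgroup.subset_closure
      refine ⟨a * b, (Λ.A s).mul_mem ha hb, l ++ l', ?_, ?_⟩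
      · intro w hw
        rcases List.mem_append.1 hw with h | h
        · exact hl w h
        · exact hl' w h
      · rw [List.map_append, List.prod_append, map_mul]
        rw [mul_assoc, ← mul_assoc (l.map (one B R)).prod, ← fn_comm b, mul_assoc, mul_assoc]
    | zero => rw [mul_zero]; exact zero_mem _
    | add y z _ _ h1 h2 => rw [mul_add]; exact add_mem h1 h2
    | neg y _ h1 => rw [mul_neg]; exact neg_mem h1
  | zero => rw [zero_mul]; exact zero_mem _
  | add y z _ _ h1 h2 => rw [add_mul]; exact add_mem h1 h2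
  | neg y _ h1 => rw [neg_mul]; exact neg_mem h1

theorem M_le_gens {s : Finset V} {x : DR B R} (hx : x ∈ Λ.M s) :
    x ∈ AddSubgroup.closure (gens Λ s) := by
  unfold Lat.M at hx
  induction hx using Subring.closure_induction with
  | mem x hx =>
    apply AddSubgroup.subset_closure
    rcases hx with ⟨a, ha, rfl⟩ | ⟨w, hw, rfl⟩
    · exact ⟨a, ha, [], by simp, by simp⟩
    · exact ⟨1, (Λ.A s).one_mem, [w], by simpa using hw, by simp⟩
  | zero => exact zero_mem _
  | one =>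
    apply AddSubgroup.subset_closure
    exact ⟨1, (Λ.A s).one_mem, [], by simp, by simp⟩
  | add x y _ _ h1 h2 => exact add_mem h1 h2
  | neg x _ h1 => exact neg_mem h1
  | mul x y _ _ h1 h2 => exact gens_mul h1 h2

theorem L_mem (hG : Λ.Good F T) {s : Finset V} {w : Ω[R⁄B]} (hw : w ∈ Λ.W s)
    {β : Finset V → DR B R} (hβ : ∀ t, t ⊆ s → β t ∈ Λ.M s) (t : Finset V) (ht : t ⊆ s) :
    F.L w β t ∈ Λ.M s := by
  unfold Frob.L
  split_ifs with hn
  · have hm : t.min' hn ∈ s := ht (Finset.min'_mem t hn)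
    have he : t.erase (t.min' hn) ⊆ s := (Finset.erase_subset _ _).trans ht
    refine add_mem ?_ ?_
    · exact zsmul_mem ((Λ.M s).mul_mem (one_mem' (hG.θ_mem s _ hm w hw)) (hβ t ht)) _
    · refine (Λ.M s).mul_mem (fn_mem ?_) (hβ _ he)
      unfold Frob.hm
      split_ifs with hn'
      · exact hG.h_mem s _ hm _ (he (Finset.min'_mem _ hn')) w hw
      · exact (Λ.A s).zero_mem
  · exact (Λ.M s).zero_mem

theorem foldr_mem (hG : Λ.Good F T) {s : Finset V} (l : List (Ω[R⁄B])) (hl : ∀ w ∈ l, w ∈ Λ.W s) :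
    ∀ t, t ⊆ s → l.foldr F.L (Frob.uno V B R) t ∈ Λ.M s := by
  induction l with
  | nil =>
    intro t _
    change (if t.card = 1 then (1 : DR B R) else 0) ∈ Λ.M s
    split_ifs
    · exact (Λ.M s).one_mem
    · exact (Λ.M s).zero_mem
  | cons w l ih =>
    intro t ht
    change F.L w (l.foldr F.L (Frob.uno V B R)) t ∈ Λ.M s
    exact L_mem hG (hl w (by simp)) (ih fun w' hw' => hl w' (by simp [hw'])) t ht

theorem prod_eq_iotaMulti (l : List (Ω[R⁄B])) :
    (l.map (one B R)).prod = ExteriorAlgebra.ιMulti R l.length (fun k => l.get k) := by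
  rw [ExteriorAlgebra.ιMulti_apply]
  congr 1
  conv_lhs => rw [← List.ofFn_get l, List.map_ofFn]
  rfl

theorem phi_mem (hPHI : Stmt_PHI.{u}) (hG : Λ.Good F T) {s : Finset V} {x : DR B R}
    (hx : x ∈ Λ.M s) (t : Finset V) (ht : t ⊆ s) : F.phi x t ∈ Λ.M s := by
  have hx' := M_le_gens hx
  clear hx
  induction hx' using AddSubgroup.closure_induction with
  | mem x hx =>
    obtain ⟨a, ha, l, hl, rfl⟩ := hx
    rw [(hPHI p V B R F).2.1, prod_eq_iotaMulti, (hPHI p V B R F).1]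
    refine (Λ.M s).mul_mem (fn_mem ((Λ.A s).pow_mem ha p)) ?_
    have e : (Frob.cf p l.length • ∑ σ : Equiv.Perm (Fin l.length), Equiv.Perm.sign σ •
        (List.ofFn fun k => l.get (σ k)).foldr F.L (Frob.uno V B R)) t =
      Frob.cf p l.length • ∑ σ : Equiv.Perm (Fin l.length), (Equiv.Perm.sign σ •
        (List.ofFn fun k => l.get (σ k)).foldr F.L (Frob.uno V B R)) t := by
      rw [← Finset.sum_apply]
      rfl
    rw [e]
    refine nsmul_mem (sum_mem fun σ _ => ?_) _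
    have e2 : (Equiv.Perm.sign σ • (List.ofFn fun k => l.get (σ k)).foldr F.L
        (Frob.uno V B R)) t =
      ((Equiv.Perm.sign σ : ℤˣ) : ℤ) • ((List.ofFn fun k => l.get (σ k)).foldr F.L
        (Frob.uno V B R) t) := rfl
    rw [e2]
    refine zsmul_mem (foldr_mem hG _ ?_ t ht) _
    intro w hw
    rw [List.mem_ofFn] at hw
    obtain ⟨k, rfl⟩ := hw
    exact hl _ (List.get_mem l _)
  | zero =>
    rw [map_zero]
    exact (Λ.M s).zero_mem
  | add x y _ _ h1 h2 =>
    rw [map_add]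
    exact (Λ.M s).add_mem h1 h2
  | neg x _ h1 =>
    rw [map_neg]
    exact (Λ.M s).neg_mem h1

theorem mem_K {s : Finset V} {x : DR B R} :
    x ∈ Λ.K T s ↔ ∃ y ∈ Λ.M s, x = fn B R (T s) * y := by
  constructor
  · rintro ⟨y, hy, rfl⟩
    exact ⟨y, hy, rfl⟩
  · rintro ⟨y, hy, rfl⟩
    exact ⟨y, hy, rfl⟩

theorem phi_K (hPHI : Stmt_PHI.{u}) (hG : Λ.Good F T) (hC : Λ.Cartier F T T') {s t : Finset V}
    (hs : s.Nonempty) (ht : t ⊆ s) {x : DR B R} (hx : x ∈ Λ.K T s) : F.phi x t ∈ Λ.K T' s := by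
  obtain ⟨y, hy, rfl⟩ := mem_K.1 hx
  obtain ⟨a, ha, e⟩ := hC.T_pow s hs
  rw [(hPHI p V B R F).2.1, e]
  refine mem_K.2 ⟨fn B R a * F.phi y t,
    (Λ.M s).mul_mem (fn_mem ha) (phi_mem hPHI hG hy t ht), ?_⟩
  rw [← mul_assoc, ← map_mul, mul_comm a]

theorem M_mono (hG : Λ.Good F T) {s t : Finset V} (hs : s.Nonempty) (hst : s ⊆ t) :
    Λ.M s ≤ Λ.M t := by
  unfold Lat.M
  apply Subring.closure_mono
  apply Set.union_subset_union
  · exact Set.image_mono (hG.A_mono s t hs hst)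
  · exact Set.image_mono (hG.W_mono s t hs hst)

theorem K_mono (hG : Λ.Good F T) {s t : Finset V} (hs : s.Nonempty) (hst : s ⊆ t) :
    Λ.K T s ≤ Λ.K T t := by
  intro x hx
  obtain ⟨y, hy, rfl⟩ := mem_K.1 hx
  obtain ⟨a, ha, e⟩ := hG.T_mono s t hs hst
  rw [e]
  refine mem_K.2 ⟨fn B R a * y, (Λ.M t).mul_mem (fn_mem ha) (M_mono hG hs hst hy), ?_⟩
  rw [← mul_assoc, ← map_mul, mul_comm a]

theorem inv_one (w : Ω[R⁄B]) : inv B R (one B R w) = - one B R w := by
  have hw : w ∈ Submodule.span R (Set.range (D B R)) := by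
    rw [KaehlerDifferential.span_range_derivation]; exact Submodule.mem_top
  induction hw using Submodule.span_induction with
  | mem z hz =>
    obtain ⟨a, rfl⟩ := hz
    exact inv_dd a
  | zero => rw [one, map_zero, map_zero, neg_zero]
  | add z z' _ _ h1 h2 =>
    rw [one, map_add, map_add, neg_add]
    exact congrArg₂ _ h1 h2
  | smul c z _ h1 =>
    have e : one B R (c • z) = fn B R c * one B R z := by
      rw [one, one, map_smul, Algebra.smul_def]
    rw [e, map_mul, h1, inv_fn, mul_neg]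

theorem inv_mem {s : Finset V} {x : DR B R} (hx : x ∈ Λ.M s) : inv B R x ∈ Λ.M s := by
  unfold Lat.M at hx
  induction hx using Subring.closure_induction with
  | mem x hx =>
    rcases hx with ⟨a, ha, rfl⟩ | ⟨w, hw, rfl⟩
    · rw [inv_fn]
      exact fn_mem ha
    · rw [inv_one]
      exact (Λ.M s).neg_mem (one_mem' hw)
  | zero => rw [map_zero]; exact (Λ.M s).zero_mem
  | one => rw [map_one]; exact (Λ.M s).one_mem
  | add x y _ _ h1 h2 => rw [map_add]; exact (Λ.M s).add_mem h1 h2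
  | neg x _ h1 => rw [map_neg]; exact (Λ.M s).neg_mem h1
  | mul x y _ _ h1 h2 => rw [map_mul]; exact (Λ.M s).mul_mem h1 h2

theorem dR_mem (hG : Λ.Good F T) {s : Finset V} (hs : s.Nonempty) {x : DR B R}
    (hx : x ∈ Λ.M s) : dR B R x ∈ Λ.M s := by
  have hx0 := hx
  unfold Lat.M at hx
  induction hx using Subring.closure_induction with
  | mem x hx =>
    rcases hx with ⟨a, ha, rfl⟩ | ⟨w, hw, rfl⟩
    · rw [dR_fn]
      exact one_mem' (hG.D_mem s hs a ha)
    · exact hG.dW s hs w hw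
  | zero => rw [map_zero]; exact (Λ.M s).zero_mem
  | one => rw [dR_one]; exact (Λ.M s).zero_mem
  | add x y hx hy h1 h2 => rw [map_add]; exact (Λ.M s).add_mem (h1 hx) (h2 hy)
  | neg x hx h1 => rw [map_neg]; exact (Λ.M s).neg_mem (h1 hx)
  | mul x y hx hy h1 h2 =>
    rw [dR_mul]
    exact (Λ.M s).add_mem ((Λ.M s).mul_mem (h1 hx) hy) ((Λ.M s).mul_mem (inv_mem hx) (h2 hy))

theorem dR_K (hG : Λ.Good F T) {s : Finset V} (hs : s.Nonempty) {x : DR B R}
    (hx : x ∈ Λ.K T s) : dR B R x ∈ Λ.K T s := by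
  obtain ⟨y, hy, rfl⟩ := mem_K.1 hx
  obtain ⟨w, hw, e⟩ := hG.T_d s hs
  refine mem_K.2 ⟨one B R w * y + dR B R y,
    (Λ.M s).add_mem ((Λ.M s).mul_mem (one_mem' hw) hy) (dR_mem hG hs hy), ?_⟩
  have e1 : Pool.Agent.DBE.dd B R (T s) = fn B R (T s) * one B R w := by
    rw [dd_def, e, map_smul, Algebra.smul_def]
  rw [dR_mul, dR_fn, e1, inv_fn, mul_add, mul_assoc]

theorem C_Phi (hPHI : Stmt_PHI.{u}) (hG : Λ.Good F T) (hC : Λ.Cartier F T T')
    {x : Finset V → DR B R} (hx : x ∈ Λ.C T) : F.Phi x ∈ Λ.C T' := by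
  refine ⟨?_, ?_⟩
  · unfold Frob.Phi
    exact Finset.sum_empty
  · intro u hu
    unfold Frob.Phi
    refine sum_mem fun m hm => ?_
    have h1 : (u.filter (· ≤ m)).Nonempty := ⟨m, by simp [hm]⟩
    exact phi_K hPHI hG hC hu (Finset.filter_subset _ _)
      (K_mono hG h1 (Finset.filter_subset _ _) (hx.2 _ h1))

theorem C_cd (hG : Λ.Good F T) {x : Finset V → DR B R} (hx : x ∈ Λ.C T) : cd x ∈ Λ.C T := by
  refine ⟨?_, ?_⟩
  · exact Finset.sum_empty
  · intro s hs
    unfold cd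
    refine sum_mem fun v hv => zsmul_mem ?_ _
    rcases (s.erase v).eq_empty_or_nonempty with h | h
    · rw [h, hx.1]
      exact zero_mem _
    · exact K_mono hG h (Finset.erase_subset _ _) (hx.2 _ h)

theorem C_DD (hG : Λ.Good F T) {x : Finset V → DR B R} (hx : x ∈ Λ.C T) :
    DD B R x ∈ Λ.C T := by
  refine ⟨?_, ?_⟩
  · unfold DD
    rw [(C_cd hG hx).1, hx.1, map_zero, smul_zero, add_zero]
  · intro s hs
    unfold DD
    exact add_mem ((C_cd hG hx).2 s hs) (zsmul_mem (dR_K hG hs (hx.2 s hs)) _)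

end PME_

theorem pme_proof (hPHI : Stmt_PHI.{u}) : Stmt_PME.{u} := by
  intro p _ V _ B R _ _ _ _ F Λ T T' hG _ hC
  refine ⟨?_, ?_, ?_, ?_, ?_, ?_⟩
  · intro s t ht hts x hx
    exact PME_.phi_K hPHI hG hC (ht.mono hts) hts hx
  · intro s t hs hst
    exact PME_.K_mono hG hs hst
  · intro s hs x hx
    exact PME_.dR_K hG hs hx
  · intro x hx
    exact PME_.C_Phi hPHI hG hC hx
  · intro x hx
    exact PME_.C_cd hG hx
  · intro x hx
    exact PME_.C_DD hG hx

end

end Pool.Agent.DBX.DIB
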