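import Mathlib

set_option autoImplicit false

/-!
Local exactness implies total exactness, for functions on finite sets, and the version for a map
of complexes (cone).
-/

namespace Pool.Agent.DBX.DIB

section Total

variable {V : Type*} [Fintype V] {A B : Type*} [AddCommGroup A] [AddCommGroup B]

/-- functions with values in a family of subgroups -/
def Fam (K : Finset V → AddSubgroup A) : AddSubgroup (Finset V → A) where
  carrier := {x | ∀ s, x s ∈ K s}
  zero_mem' := fun s => (K s).zero_mem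
  add_mem' := fun hx hy s => (K s).add_mem (hx s) (hy s)
  neg_mem' := fun hx s => (K s).neg_mem (hx s)

omit [Fintype V] in
theorem mem_Fam {K : Finset V → AddSubgroup A} {x : Finset V → A} :
    x ∈ Fam K ↔ ∀ s, x s ∈ K s := Iff.rfl

/-- `D` has leading terms `d s`: if `x` vanishes on all sets with less than `n` elements, then
`D x s = d s (x s)` for the sets `s` with `n` elements. -/
def Lead (D : (Finset V → A) →+ (Finset V → B)) (d : Finset V → A →+ B) : Prop :=
  ∀ (n : ℕ) (x : Finset V → A), (∀ t : Finset V, t.card < n → x t = 0) →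
    ∀ s : Finset V, s.card = n → D x s = d s (x s)

theorem total_exact (K : Finset V → AddSubgroup A) (D : (Finset V → A) →+ (Finset V → A))
    (d : Finset V → A →+ A) (hD : ∀ x ∈ Fam K, D x ∈ Fam K) (DD : ∀ x ∈ Fam K, D (D x) = 0)
    (lead : Lead D d)
    (ex : ∀ s, ∀ x ∈ K s, d s x = 0 → ∃ y ∈ K s, d s y = x)
    (x : Finset V → A) (hx : x ∈ Fam K) (hDx : D x = 0) : ∃ y ∈ Fam K, D y = x := by
  classical
  have key : ∀ n : ℕ, ∃ y ∈ Fam K, ∀ s : Finset V, s.card < n → (x - D y) s = 0 := by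
    intro n
    induction n with
    | zero => exact ⟨0, (Fam K).zero_mem, fun s hs => by omega⟩
    | succ n ih =>
      obtain ⟨y, hy, hy2⟩ := ih
      set r := x - D y with hr
      have hrK : r ∈ Fam K := (Fam K).sub_mem hx (hD y hy)
      have hDr : D r = 0 := by rw [hr, map_sub, hDx, DD y hy, sub_zero]
      have h1 : ∀ s : Finset V, s.card = n → ∃ z ∈ K s, d s z = r s := by
        intro s hs
        apply ex s (r s) (hrK s)
        rw [← lead n r hy2 s hs, hDr]
        rfl
      let w : Finset V → A := fun s => if h : s.card = n then (h1 s h).choose else 0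
      have hwK : w ∈ Fam K := by
        intro s
        show (if h : s.card = n then (h1 s h).choose else 0) ∈ K s
        split_ifs with h
        · exact (h1 s h).choose_spec.1
        · exact (K s).zero_mem
      have hw0 : ∀ t : Finset V, t.card < n → w t = 0 := by
        intro t ht
        exact dif_neg (by omega)
      have hwn : ∀ s : Finset V, s.card = n → D w s = r s := by
        intro s hs
        rw [lead n w hw0 s hs]
        have : w s = (h1 s hs).choose := dif_pos hs
        rw [this]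
        exact (h1 s hs).choose_spec.2
      refine ⟨y + w, (Fam K).add_mem hy hwK, ?_⟩
      intro s hs
      have e : x - D (y + w) = r - D w := by rw [map_add, hr]; abel
      rw [e]
      show r s - D w s = 0
      rcases Nat.lt_succ_iff_lt_or_eq.mp hs with h | h
      · rw [hy2 s h, lead s.card w (fun t ht => hw0 t (by omega)) s rfl, hw0 s h, map_zero,
          sub_zero]
      · rw [hwn s h, sub_self]
  obtain ⟨y, hy, hy2⟩ := key (Fintype.card V + 1)
  refine ⟨y, hy, ?_⟩
  funext s
  have := hy2 s (Nat.lt_succ_of_le (Finset.card_le_univ s))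
  exact (sub_eq_zero.mp this).symm

/-- the version for a map of complexes -/
theorem cone_exact (K : Finset V → AddSubgroup A) (L : Finset V → AddSubgroup B)
    (D1 : (Finset V → A) →+ (Finset V → A)) (D2 : (Finset V → B) →+ (Finset V → B))
    (Ψ : (Finset V → A) →+ (Finset V → B))
    (d1 : Finset V → A →+ A) (d2 : Finset V → B →+ B) (ψ : Finset V → A →+ B)
    (hD1 : ∀ x ∈ Fam K, D1 x ∈ Fam K) (hD2 : ∀ x ∈ Fam L, D2 x ∈ Fam L)
    (hΨ : ∀ x ∈ Fam K, Ψ x ∈ Fam L)
    (DD1 : ∀ x ∈ Fam K, D1 (D1 x) = 0) (DD2 : ∀ x ∈ Fam L, D2 (D2 x) = 0)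
    (comm : ∀ x ∈ Fam K, Ψ (D1 x) = D2 (Ψ x))
    (lead1 : Lead D1 d1) (lead2 : Lead D2 d2) (leadΨ : Lead Ψ ψ)
    (ex : ∀ s, ∀ a ∈ K s, ∀ b ∈ L s, d1 s a = 0 → ψ s a = d2 s b →
      ∃ g ∈ K s, ∃ h ∈ L s, d1 s g = a ∧ ψ s g - d2 s h = b)
    (a : Finset V → A) (b : Finset V → B) (ha : a ∈ Fam K) (hb : b ∈ Fam L)
    (h1 : D1 a = 0) (h2 : Ψ a = D2 b) :
    ∃ g ∈ Fam K, ∃ h ∈ Fam L, D1 g = a ∧ Ψ g - D2 h = b := by
  let KL : Finset V → AddSubgroup (A × B) := fun s => (K s).prod (L s)
  let f1 : (Finset V → A × B) →+ (Finset V → A) :=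
    { toFun := fun x s => (x s).1, map_zero' := rfl, map_add' := fun _ _ => rfl }
  let f2 : (Finset V → A × B) →+ (Finset V → B) :=
    { toFun := fun x s => (x s).2, map_zero' := rfl, map_add' := fun _ _ => rfl }
  let D : (Finset V → A × B) →+ (Finset V → A × B) :=
    { toFun := fun x s => (D1 (f1 x) s, Ψ (f1 x) s - D2 (f2 x) s)
      map_zero' := by
        funext s
        simp
      map_add' := fun x y => by
        funext s
        apply Prod.ext
        · show D1 (f1 (x + y)) s = D1 (f1 x) s + D1 (f1 y) s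
          rw [map_add, map_add, Pi.add_apply]
        · show Ψ (f1 (x + y)) s - D2 (f2 (x + y)) s =
            (Ψ (f1 x) s - D2 (f2 x) s) + (Ψ (f1 y) s - D2 (f2 y) s)
          rw [map_add, map_add, map_add, map_add, Pi.add_apply, Pi.add_apply]
          abel }
  let d : Finset V → (A × B) →+ (A × B) := fun s =>
    { toFun := fun x => (d1 s x.1, ψ s x.1 - d2 s x.2)
      map_zero' := by simp
      map_add' := fun x y => by
        apply Prod.ext
        · show d1 s (x + y).1 = d1 s x.1 + d1 s y.1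
          rw [Prod.fst_add, map_add]
        · show ψ s (x + y).1 - d2 s (x + y).2 = (ψ s x.1 - d2 s x.2) + (ψ s y.1 - d2 s y.2)
          rw [Prod.fst_add, Prod.snd_add, map_add, map_add]
          abel }
  have hf1D : ∀ x, f1 (D x) = D1 (f1 x) := fun x => rfl
  have hf2D : ∀ x, f2 (D x) = Ψ (f1 x) - D2 (f2 x) := fun x => rfl
  have m1 : ∀ x ∈ Fam KL, f1 x ∈ Fam K := fun x hx s => (hx s).1
  have m2 : ∀ x ∈ Fam KL, f2 x ∈ Fam L := fun x hx s => (hx s).2
  have ext2 : ∀ x : Finset V → A × B, f1 x = 0 → f2 x = 0 → x = 0 := by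
    intro x hx1 hx2
    funext s
    exact Prod.ext (congrFun hx1 s) (congrFun hx2 s)
  obtain ⟨y, hy, hy2⟩ := total_exact KL D d
    (fun x hx s => ⟨hD1 _ (m1 x hx) s, (L s).sub_mem (hΨ _ (m1 x hx) s) (hD2 _ (m2 x hx) s)⟩)
    (fun x hx => by
      apply ext2
      · rw [hf1D, hf1D, DD1 _ (m1 x hx)]
      · rw [hf2D, hf1D, hf2D, map_sub, DD2 _ (m2 x hx), comm _ (m1 x hx), sub_zero, sub_self])
    (fun n x hx s hs => by
      have e1 : ∀ t : Finset V, t.card < n → f1 x t = 0 := fun t ht => by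
        show (x t).1 = 0
        rw [hx t ht]; rfl
      have e2 : ∀ t : Finset V, t.card < n → f2 x t = 0 := fun t ht => by
        show (x t).2 = 0
        rw [hx t ht]; rfl
      show (D1 (f1 x) s, Ψ (f1 x) s - D2 (f2 x) s) = (d1 s (x s).1, ψ s (x s).1 - d2 s (x s).2)
      rw [lead1 n _ e1 s hs, lead2 n _ e2 s hs, leadΨ n _ e1 s hs]
      rfl)
    (fun s x hx h => by
      have h' : (d1 s x.1, ψ s x.1 - d2 s x.2) = (0, 0) := h
      rw [Prod.mk.injEq, sub_eq_zero] at h'
      obtain ⟨g, hg, k, hk, e1, e2⟩ := ex s x.1 hx.1 x.2 hx.2 h'.1 h'.2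
      exact ⟨(g, k), ⟨hg, hk⟩, Prod.ext e1 e2⟩)
    (fun s => (a s, b s)) (fun s => ⟨ha s, hb s⟩)
    (by
      apply ext2
      · rw [hf1D]; exact h1
      · rw [hf2D]
        exact sub_eq_zero.mpr h2)
  refine ⟨f1 y, m1 y hy, f2 y, m2 y hy, ?_, ?_⟩
  · rw [← hf1D, hy2]; rfl
  · rw [← hf2D, hy2]; rfl

end Total

end Pool.Agent.DBX.DIB
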