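import Pool.Agent.DBX.DIB.Stmts
import Pool.Agent.DBX.DIB.Total
import Pool.Agent.DBX.Cd

set_option autoImplicit false

namespace Pool.Agent.DBX.DIB

open KaehlerDifferential Pool.Agent.DBE Pool.Agent.DBX

universe u

noncomputable section

namespace QIS_

section
variable {B : Type} {R : Type u} [CommRing B] [CommRing R] [Algebra B R]

theorem inv_one (w : Ω[R⁄B]) : inv B R (one B R w) = - one B R w := by
  have hw : w ∈ Submodule.span R (Set.range (D B R)) := by
    rw [KaehlerDifferential.span_range_derivation]; exact Submodule.mem_top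
  induction hw using Submodule.span_induction with
  | mem z hz => obtain ⟨a, rfl⟩ := hz; exact inv_dd a
  | zero => simp [one]
  | add z z' _ _ h1 h2 =>
    have e : one B R (z + z') = one B R z + one B R z' := map_add _ _ _
    rw [e, map_add, h1, h2, neg_add]
  | smul c z _ h1 =>
    have e : one B R (c • z) = fn B R c * one B R z := by
      rw [one, map_smul, Algebra.smul_def]
    rw [e, map_mul, h1, inv_fn, mul_neg]

end

section
variable {p : ℕ} [Fact p.Prime] {V : Type} [LinearOrder V] {B : Type} {R : Type u}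
  [CommRing B] [CommRing R] [Algebra B R] [CharP R p] {F : Frob p V B R} {Λ : Lat V B R}
  {T : Finset V → R}

omit [Fact p.Prime] [LinearOrder V] [CharP R p] in
theorem inv_M {s : Finset V} {x : DR B R} (hx : x ∈ Λ.M s) : inv B R x ∈ Λ.M s := by
  unfold Lat.M at hx
  induction hx using Subring.closure_induction with
  | mem x h =>
    rcases h with ⟨a, ha, rfl⟩ | ⟨w, hw, rfl⟩
    · rw [inv_fn]
      exact Subring.subset_closure (Or.inl ⟨a, ha, rfl⟩)
    · rw [inv_one]
      exact neg_mem (Subring.subset_closure (Or.inr ⟨w, hw, rfl⟩))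
  | zero => rw [map_zero]; exact zero_mem _
  | one => rw [map_one]; exact one_mem _
  | add x y _ _ h1 h2 => rw [map_add]; exact add_mem h1 h2
  | neg x _ h1 => rw [map_neg]; exact neg_mem h1
  | mul x y _ _ h1 h2 => rw [map_mul]; exact mul_mem h1 h2

theorem dR_M (hG : Λ.Good F T) {s : Finset V} (hs : s.Nonempty) {x : DR B R} (hx : x ∈ Λ.M s) :
    dR B R x ∈ Λ.M s := by
  have hx0 := hx
  unfold Lat.M at hx
  induction hx using Subring.closure_induction with
  | mem x h =>
    rcases h with ⟨a, ha, rfl⟩ | ⟨w, hw, rfl⟩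
    · rw [dR_fn]
      exact Subring.subset_closure (Or.inr ⟨D B R a, hG.D_mem s hs a ha, rfl⟩)
    · exact hG.dW s hs w hw
  | zero => rw [map_zero]; exact zero_mem _
  | one => rw [dR_one]; exact zero_mem _
  | add x y hx hy h1 h2 => rw [map_add]; exact add_mem (h1 hx) (h2 hy)
  | neg x hx h1 => rw [map_neg]; exact neg_mem (h1 hx)
  | mul x y hx hy h1 h2 =>
    rw [dR_mul]
    exact add_mem (mul_mem (h1 hx) hy) (mul_mem (inv_M hx) (h2 hy))

theorem M_mono (hG : Λ.Good F T) {s t : Finset V} (hs : s.Nonempty) (hst : s ⊆ t) :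
    Λ.M s ≤ Λ.M t := by
  refine Subring.closure_mono ?_
  rintro x (⟨a, ha, rfl⟩ | ⟨w, hw, rfl⟩)
  · exact Or.inl ⟨a, hG.A_mono s t hs hst ha, rfl⟩
  · exact Or.inr ⟨w, hG.W_mono s t hs hst hw, rfl⟩

theorem K_mono (hG : Λ.Good F T) {s t : Finset V} (hs : s.Nonempty) (hst : s ⊆ t) :
    Λ.K T s ≤ Λ.K T t := by
  rintro _ ⟨y, hy, rfl⟩
  obtain ⟨a, ha, e⟩ := hG.T_mono s t hs hst
  have hm : fn B R a * y ∈ Λ.M t :=
    mul_mem (Subring.subset_closure (Or.inl ⟨a, ha, rfl⟩)) (M_mono hG hs hst hy)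
  refine ⟨fn B R a * y, hm, ?_⟩
  change fn B R (T t) * (fn B R a * y) = fn B R (T s) * y
  rw [e, map_mul, ← mul_assoc, fn_comm]

theorem dR_K (hG : Λ.Good F T) {s : Finset V} (hs : s.Nonempty) {x : DR B R}
    (hx : x ∈ Λ.K T s) : dR B R x ∈ Λ.K T s := by
  obtain ⟨y, hy, rfl⟩ := hx
  obtain ⟨w, hw, e⟩ := hG.T_d s hs
  have hm : one B R w * y + dR B R y ∈ Λ.M s :=
    add_mem (mul_mem (Subring.subset_closure (Or.inr ⟨w, hw, rfl⟩)) hy) (dR_M hG hs hy)
  refine ⟨one B R w * y + dR B R y, hm, ?_⟩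
  change fn B R (T s) * (one B R w * y + dR B R y) = dR B R (fn B R (T s) * y)
  rw [dR_fn_mul, dd_def, e, map_smul, Algebra.smul_def, mul_add, mul_assoc]

theorem cd_C (hG : Λ.Good F T) {x : Finset V → DR B R} (hx : x ∈ Λ.C T) : cd x ∈ Λ.C T := by
  refine ⟨cd_empty x, ?_⟩
  intro s hs
  rw [cd_apply]
  refine sum_mem ?_
  intro v _
  refine zsmul_mem ?_ _
  by_cases h : (s.erase v).Nonempty
  · exact K_mono hG h (Finset.erase_subset v s) (hx.2 _ h)
  · rw [Finset.not_nonempty_iff_eq_empty] at h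
    rw [h, hx.1]
    exact zero_mem _

theorem DD_C (hG : Λ.Good F T) {x : Finset V → DR B R} (hx : x ∈ Λ.C T) : DD B R x ∈ Λ.C T := by
  refine ⟨?_, ?_⟩
  · unfold DD
    rw [cd_empty, hx.1, map_zero, smul_zero, add_zero]
  · intro s hs
    exact add_mem ((cd_C hG hx).2 s hs) (zsmul_mem (dR_K hG hs (hx.2 s hs)) _)

end

section
variable {V : Type} {B : Type} {R : Type u} [CommRing B] [CommRing R] [Algebra B R]

open Classical in
/-- `K` extended by zero -/
def K0 (Λ : Lat V B R) (T : Finset V → R) (s : Finset V) : AddSubgroup (DR B R) :=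
  if s.Nonempty then Λ.K T s else ⊥

theorem mem_Fam_K0 (Λ : Lat V B R) (T : Finset V → R) (x : Finset V → DR B R) :
    x ∈ Fam (K0 Λ T) ↔ x ∈ Λ.C T := by
  constructor
  · intro h
    refine ⟨?_, ?_⟩
    · have := h ∅
      unfold K0 at this
      rw [if_neg (by simp)] at this
      exact this
    · intro s hs
      have := h s
      unfold K0 at this
      rwa [if_pos hs] at this
  · rintro ⟨h1, h2⟩ s
    unfold K0
    split_ifs with hs
    · exact h2 s hs
    · rw [Finset.not_nonempty_iff_eq_empty] at hs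
      rw [hs, h1]
      exact zero_mem _

end

end QIS_

open QIS_ in
theorem qis_proof.{w} (_hCDI : Stmt_CDI.{w}) (hDDD : Stmt_DDD.{w}) (hPHV : Stmt_PHV.{w})
    (hPCH : Stmt_PCH.{w}) (hPME : Stmt_PME.{w}) : Stmt_QIS.{w} := by
  intro p _ V _ _ B R _ _ _ _ F Λ T T' hnil hG hG' hC
  haveI : Fintype V := Fintype.ofFinite V
  obtain ⟨-, -, -, hval⟩ := hPHV p V B R F
  have hphi := hval hnil
  obtain ⟨hDD0, hDDadd⟩ := hDDD V B R
  have hadd : ∀ w w' : Finset V → DR B R, F.Phi (w + w') = F.Phi w + F.Phi w' :=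
    fun w w' => (hPCH p V B R F w w').2.1
  let D1 : (Finset V → DR B R) →+ (Finset V → DR B R) := AddMonoidHom.mk' cd cd_add
  let D2 : (Finset V → DR B R) →+ (Finset V → DR B R) := AddMonoidHom.mk' (DD B R) hDDadd
  let Ψ : (Finset V → DR B R) →+ (Finset V → DR B R) := AddMonoidHom.mk' F.Phi hadd
  let d1 : Finset V → DR B R →+ DR B R := fun _ => 0
  let d2 : Finset V → DR B R →+ DR B R := fun s => sg s • dR B R
  let ψ : Finset V → DR B R →+ DR B R := fun s =>
    if hs : s.Nonempty then (F.Lam (s.max' hs)).toAddMonoidHom else 0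
  have hD1 : ∀ x ∈ Fam (K0 Λ T), D1 x ∈ Fam (K0 Λ T) := by
    intro x hx
    rw [mem_Fam_K0] at hx ⊢
    exact cd_C hG hx
  have hD2 : ∀ x ∈ Fam (K0 Λ T'), D2 x ∈ Fam (K0 Λ T') := by
    intro x hx
    rw [mem_Fam_K0] at hx ⊢
    exact DD_C hG' hx
  have hΨ : ∀ x ∈ Fam (K0 Λ T), Ψ x ∈ Fam (K0 Λ T') := by
    intro x hx
    rw [mem_Fam_K0] at hx ⊢
    exact (hPME p V B R F Λ T T' hG hG' hC).2.2.2.1 x hx
  have hDD1 : ∀ x ∈ Fam (K0 Λ T), D1 (D1 x) = 0 := fun x _ => cd_cd x
  have hDD2 : ∀ x ∈ Fam (K0 Λ T'), D2 (D2 x) = 0 := fun x _ => hDD0 x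
  have hcomm : ∀ x ∈ Fam (K0 Λ T), Ψ (D1 x) = D2 (Ψ x) := by
    intro x hx
    rw [mem_Fam_K0] at hx
    exact ((hPCH p V B R F x x).2.2 hx.1).symm
  have hlead0 : ∀ (n : ℕ) (x : Finset V → DR B R), (∀ t : Finset V, t.card < n → x t = 0) →
      ∀ s : Finset V, s.card = n → cd x s = 0 := by
    intro n x hx s hs
    rw [cd_apply]
    refine Finset.sum_eq_zero ?_
    intro v hv
    rw [hx (s.erase v) (by rw [← hs]; exact Finset.card_erase_lt_of_mem hv), smul_zero]
  have lead1 : Lead D1 d1 := by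
    intro n x hx s hs
    exact hlead0 n x hx s hs
  have lead2 : Lead D2 d2 := by
    intro n x hx s hs
    change cd x s + sg s • dR B R (x s) = (sg s • dR B R) (x s)
    rw [hlead0 n x hx s hs, zero_add]
    rfl
  have leadΨ : Lead Ψ ψ := by
    intro n x hx s hs
    change F.Phi x s = ψ s (x s)
    unfold Frob.Phi
    by_cases hne : s.Nonempty
    · have hmax := s.max'_mem hne
      rw [Finset.sum_eq_single_of_mem (s.max' hne) hmax]
      · have e1 : s.filter (· ≤ s.max' hne) = s := by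
          rw [Finset.filter_eq_self]
          intro a ha
          exact s.le_max' a ha
        have e2 : s.filter (s.max' hne ≤ ·) = {s.max' hne} := by
          ext a
          simp only [Finset.mem_filter, Finset.mem_singleton]
          constructor
          · rintro ⟨h1, h2⟩
            exact le_antisymm (s.le_max' a h1) h2
          · rintro rfl
            exact ⟨hmax, le_rfl⟩
        rw [e1, e2, hphi]
        change _ = (if hs : s.Nonempty then (F.Lam (s.max' hs)).toAddMonoidHom else 0) (x s)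
        rw [dif_pos hne]
        rfl
      · intro m hm hmne
        have hlt : (s.filter (· ≤ m)).card < n := by
          rw [← hs]
          refine Finset.card_lt_card ?_
          refine ⟨Finset.filter_subset _ _, ?_⟩
          intro hsub
          have h1 := hsub hmax
          rw [Finset.mem_filter] at h1
          exact hmne (le_antisymm (s.le_max' m hm) h1.2)
        rw [hx _ hlt, map_zero]
        rfl
    · rw [Finset.not_nonempty_iff_eq_empty] at hne
      subst hne
      change _ = (if hs : (∅ : Finset V).Nonempty then (F.Lam ((∅ : Finset V).max' hs)).toAddMonoidHom else 0) (x ∅)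
      rw [dif_neg (by simp), Finset.sum_empty]
      rfl
  have ex : ∀ s, ∀ a ∈ K0 Λ T s, ∀ b ∈ K0 Λ T' s, d1 s a = 0 → ψ s a = d2 s b →
      ∃ g ∈ K0 Λ T s, ∃ h ∈ K0 Λ T' s, d1 s g = a ∧ ψ s g - d2 s h = b := by
    intro s a ha b hb _ hab
    by_cases hne : s.Nonempty
    · have hmax := s.max'_mem hne
      have eK : K0 Λ T s = Λ.K T s := if_pos hne
      have eK' : K0 Λ T' s = Λ.K T' s := if_pos hne
      have eψ : ∀ x, ψ s x = F.Lam (s.max' hne) x := by
        intro x
        change (if hs : s.Nonempty then (F.Lam (s.max' hs)).toAddMonoidHom else 0) x = _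
        rw [dif_pos hne]
        rfl
      rw [eK] at ha
      rw [eK'] at hb
      have hsg : sg s * sg s = 1 := by
        unfold sg
        rw [← mul_pow]
        simp
      have ha0 : a = 0 := by
        refine hC.inj s (s.max' hne) hmax a ha (sg s • b) (zsmul_mem hb _) ?_
        rw [← eψ, hab, map_zsmul]
        rfl
      have hdb : dR B R b = 0 := by
        rw [ha0, map_zero] at hab
        have h1 : sg s • dR B R b = 0 := hab.symm
        have h2 := congrArg (fun y => sg s • y) h1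
        simp only [smul_smul, hsg, one_smul, smul_zero] at h2
        exact h2
      obtain ⟨x, hx, y', hy', e⟩ := hC.surj s (s.max' hne) hmax b hb hdb
      refine ⟨x, by rw [eK]; exact hx, - (sg s • y'), ?_, ?_, ?_⟩
      · rw [eK']
        exact neg_mem (zsmul_mem hy' _)
      · rw [ha0]; rfl
      · rw [eψ, map_neg, sub_neg_eq_add, e]
        congr 1
        change sg s • dR B R (sg s • y') = _
        rw [map_zsmul, smul_smul, hsg, one_smul]
    · have eK : K0 Λ T s = ⊥ := if_neg hne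
      have eK' : K0 Λ T' s = ⊥ := if_neg hne
      rw [eK, AddSubgroup.mem_bot] at ha
      rw [eK', AddSubgroup.mem_bot] at hb
      refine ⟨0, zero_mem _, 0, zero_mem _, ?_, ?_⟩
      · rw [ha, map_zero]
      · rw [hb, map_zero, map_zero, sub_zero]
  have cone := cone_exact (K0 Λ T) (K0 Λ T') D1 D2 Ψ d1 d2 ψ hD1 hD2 hΨ hDD1 hDD2 hcomm
    lead1 lead2 leadΨ ex
  constructor
  · intro x hx hcx y hy hxy
    obtain ⟨g, hg, h, hh, e1, e2⟩ := cone x y ((mem_Fam_K0 Λ T x).2 hx) ((mem_Fam_K0 Λ T' y).2 hy)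
      hcx hxy
    exact ⟨g, (mem_Fam_K0 Λ T g).1 hg, e1.symm⟩
  · intro y hy hDy
    obtain ⟨g, hg, h, hh, e1, e2⟩ := cone 0 y (zero_mem _) ((mem_Fam_K0 Λ T' y).2 hy)
      (map_zero D1) (by rw [map_zero]; exact hDy.symm)
    refine ⟨g, (mem_Fam_K0 Λ T g).1 hg, e1, -h, neg_mem ((mem_Fam_K0 Λ T' h).1 hh), ?_⟩
    have e3 : DD B R (-h) = - DD B R h := map_neg D2 h
    rw [e3, ← sub_eq_add_neg]
    exact e2.symm

end

end Pool.Agent.DBX.DIB
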