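import Pool.Agent.DBX.DIB.Stmts
import Pool.Agent.DBX.DIB.Total

/-!
# DBX, area DIB, module TEX: local exactness implies exactness
-/

set_option autoImplicit false

namespace Pool.Agent.DBX.DIB

open KaehlerDifferential Pool.Agent.DBE Pool.Agent.DBX

theorem tex_proof.{u} : Stmt_TEX.{u} := by
  intro V _ _ G _ K d N hN hK hDD hex α hα hα0
  let _ : Fintype V := Fintype.ofFinite V
  let D : (Finset V → G) →+ (Finset V → G) :=
    { toFun := fun x s => d s (x s) + N x s
      map_zero' := by
        funext s
        show d s ((0 : Finset V → G) s) + N 0 s = 0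
        rw [map_zero, Pi.zero_apply, map_zero, add_zero]
      map_add' := fun x y => by
        funext s
        show d s ((x + y) s) + N (x + y) s = (d s (x s) + N x s) + (d s (y s) + N y s)
        rw [map_add, Pi.add_apply, Pi.add_apply, map_add]
        abel }
  obtain ⟨β, hβ, hβ2⟩ := total_exact K D d (fun x hx s => hK x hx s)
    (fun x hx => by
      funext s
      exact hDD x hx s)
    (fun n x hx s hs => by
      show d s (x s) + N x s = d s (x s)
      rw [hN x s (fun t ht => hx t (by rw [← hs]; exact Finset.card_lt_card ht)), add_zero])
    hex α hα (by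
      funext s
      exact hα0 s)
  exact ⟨β, hβ, fun s => congrFun hβ2 s⟩

end Pool.Agent.DBX.DIB
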