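import Pool.Agent.DBX.DIB.CDI
import Pool.Agent.DBX.DIB.DDD
import Pool.Agent.DBX.DIB.LOP
import Pool.Agent.DBX.DIB.PHI
import Pool.Agent.DBX.DIB.PHV
import Pool.Agent.DBX.DIB.PCH
import Pool.Agent.DBX.DIB.PME
import Pool.Agent.DBX.DIB.TEX
import Pool.Agent.DBX.DIB.QIS
import Pool.Agent.DBX.DIB.GRD
import Pool.Agent.DBX.DIB.CNT
import Pool.Agent.DBX.DIB.DIB

/-!
# DBX, area DIB: assembly
-/

set_option autoImplicit false

namespace Pool.Agent.DBX.DIB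

universe u

theorem a_cdi : Stmt_CDI.{u} := cdi_proof.{u} 

theorem a_ddd : Stmt_DDD.{u} := ddd_proof.{u} a_cdi.{u}

theorem a_lop : Stmt_LOP.{u} := lop_proof.{u} a_cdi.{u}

theorem a_phi : Stmt_PHI.{u} := phi_proof.{u} a_cdi.{u} a_ddd.{u} a_lop.{u}

theorem a_phv : Stmt_PHV.{u} := phv_proof.{u} a_phi.{u}

theorem a_pch : Stmt_PCH.{u} := pch_proof.{u} a_cdi.{u} a_ddd.{u} a_phi.{u}

theorem a_pme : Stmt_PME.{u} := pme_proof.{u} a_phi.{u}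

theorem a_tex : Stmt_TEX.{u} := tex_proof.{u} 

theorem a_qis : Stmt_QIS.{u} := qis_proof.{u} a_cdi.{u} a_ddd.{u} a_phv.{u} a_pch.{u} a_pme.{u}

theorem a_grd : Stmt_GRD.{u} := grd_proof.{u} 

theorem a_cnt : Stmt_CNT.{u} := cnt_proof.{u} 

theorem a_dib : Stmt_DIB.{u} := dib_proof.{u} a_cdi.{u} a_ddd.{u} a_pch.{u} a_pme.{u} a_qis.{u} a_grd.{u} a_cnt.{u}

end Pool.Agent.DBX.DIB
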