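import Pool.Agent.DBX.DIB.Defs

/-!
# DBX, area DIB: Deligne-Illusie, the cochain part (area DI-B of DBX).  Statements of the modules.
-/

set_option autoImplicit false

namespace Pool.Agent.DBX.DIB

open KaehlerDifferential Pool.Agent.DBE Pool.Agent.DBX

universe u

noncomputable section

/-- CDI: the Čech differential and the insertion of a new smallest element; `cd cd = 0`. -/
def Stmt_CDI : Prop :=
  (∀ (V : Type) [LinearOrder V] (G : Type u) [AddCommGroup G] (β : Finset V → G) (i : V)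
    (s : Finset V), (∀ j ∈ s, i < j) →
    cd β (insert i s) = β s - cd (fun t => β (insert i t)) s) ∧
  (∀ (V : Type) [LinearOrder V] (G : Type u) [AddCommGroup G] (β : Finset V → G), cd β ∅ = 0) ∧
  (∀ (V : Type) [LinearOrder V] (G : Type u) [AddCommGroup G] (β γ : Finset V → G),
    cd (β + γ) = cd β + cd γ) ∧
  (∀ (V : Type) [LinearOrder V] (G : Type u) [AddCommGroup G] (β : Finset V → G),
    cd (cd β) = 0) ∧
  (∀ (V : Type) [LinearOrder V] (G H : Type u) [AddCommGroup G] [AddCommGroup H] (f : G →+ H)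
    (β : Finset V → G) (s : Finset V), cd (fun t => f (β t)) s = f (cd β s))

/-- DDD: `D D = 0`, and `D` is additive. -/
def Stmt_DDD : Prop :=
  ∀ (V : Type) [LinearOrder V] (B : Type) (R : Type u) [CommRing B] [CommRing R] [Algebra B R],
    (∀ β : Finset V → DR B R, DD B R (DD B R β) = 0) ∧
    ∀ β γ : Finset V → DR B R, DD B R (β + γ) = DD B R β + DD B R γ

/-- LOP: the operator `L_w` anticommutes with `D` (on non-augmented cochains). -/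
def Stmt_LOP : Prop :=
  ∀ (p : ℕ) (V : Type) [LinearOrder V] (B : Type) (R : Type u) [CommRing B] [CommRing R]
    [Algebra B R] (F : Frob p V B R) (w : Ω[R⁄B]) (β : Finset V → DR B R), β ∅ = 0 →
    F.L w β ∅ = 0 ∧ DD B R (F.L w β) = - F.L w (DD B R β)

/-- PHI: the map `φ` is closed; the formula for products of one-forms; semilinearity. -/
def Stmt_PHI : Prop :=
  ∀ (p : ℕ) [Fact p.Prime] (V : Type) [LinearOrder V] (B : Type) (R : Type u) [CommRing B]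
    [CommRing R] [Algebra B R] [CharP R p] (F : Frob p V B R),
    (∀ (i : ℕ) (w : Fin i → Ω[R⁄B]), F.phi (ExteriorAlgebra.ιMulti R i w) =
      Frob.cf p i • ∑ σ : Equiv.Perm (Fin i), Equiv.Perm.sign σ •
        (List.ofFn fun k => w (σ k)).foldr F.L (Frob.uno V B R)) ∧
    (∀ (a : R) (x : DR B R) (s : Finset V),
      F.phi (fn B R a * x) s = fn B R (a ^ p) * F.phi x s) ∧
    ∀ x : DR B R, F.phi x ∅ = 0 ∧ DD B R (F.phi x) = 0

/-- PHV: the value of `φ` at a vertex. -/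
def Stmt_PHV : Prop :=
  ∀ (p : ℕ) [Fact p.Prime] (V : Type) [LinearOrder V] (B : Type) (R : Type u) [CommRing B]
    [CommRing R] [Algebra B R] [CharP R p] (F : Frob p V B R),
    (∀ v (w : Ω[R⁄B]), F.Lam v (one B R w) = one B R (F.θ v w)) ∧
    (∀ v (a : R), F.Lam v (fn B R a) = fn B R (a ^ p)) ∧
    (∀ v (x : DR B R), dR B R (F.Lam v x) = 0) ∧
    ((∀ w : Fin p → Ω[R⁄B], ExteriorAlgebra.ιMulti R p w = 0) →
      ∀ (x : DR B R) (v : V), F.phi x {v} = F.Lam v x)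

/-- PCH: `Φ` is a chain map. -/
def Stmt_PCH : Prop :=
  ∀ (p : ℕ) [Fact p.Prime] (V : Type) [LinearOrder V] (B : Type) (R : Type u) [CommRing B]
    [CommRing R] [Algebra B R] [CharP R p] (F : Frob p V B R) (w w' : Finset V → DR B R),
    F.Phi w ∅ = 0 ∧ F.Phi (w + w') = F.Phi w + F.Phi w' ∧
      (w ∅ = 0 → DD B R (F.Phi w) = F.Phi (cd w))

/-- PME: `φ` and `Φ` respect the lattices; the total differential and the Čech differential
too. -/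
def Stmt_PME : Prop :=
  ∀ (p : ℕ) [Fact p.Prime] (V : Type) [LinearOrder V] (B : Type) (R : Type u) [CommRing B]
    [CommRing R] [Algebra B R] [CharP R p] (F : Frob p V B R) (Λ : Lat V B R)
    (T T' : Finset V → R), Λ.Good F T → Λ.Good F T' → Λ.Cartier F T T' →
    (∀ s t, t.Nonempty → t ⊆ s → ∀ x ∈ Λ.K T s, F.phi x t ∈ Λ.K T' s) ∧
    (∀ s t, s.Nonempty → s ⊆ t → Λ.K T s ≤ Λ.K T t) ∧
    (∀ s, s.Nonempty → ∀ x ∈ Λ.K T s, dR B R x ∈ Λ.K T s) ∧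
    (∀ x ∈ Λ.C T, F.Phi x ∈ Λ.C T') ∧
    (∀ x ∈ Λ.C T, cd x ∈ Λ.C T) ∧
    (∀ x ∈ Λ.C T, DD B R x ∈ Λ.C T)

/-- TEX: local exactness implies exactness. -/
def Stmt_TEX : Prop :=
  ∀ (V : Type) [LinearOrder V] [Finite V] (G : Type u) [AddCommGroup G]
    (K : Finset V → AddSubgroup G) (d : Finset V → G →+ G)
    (N : (Finset V → G) →+ (Finset V → G)),
    (∀ α s, (∀ t, t ⊂ s → α t = 0) → N α s = 0) →
    (∀ α, (∀ s, α s ∈ K s) → ∀ s, d s (α s) + N α s ∈ K s) →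
    (∀ α, (∀ s, α s ∈ K s) → ∀ s, d s (d s (α s) + N α s) +
      N (fun t => d t (α t) + N α t) s = 0) →
    (∀ s, ∀ x ∈ K s, d s x = 0 → ∃ y ∈ K s, d s y = x) →
    ∀ α, (∀ s, α s ∈ K s) → (∀ s, d s (α s) + N α s = 0) →
      ∃ β, (∀ s, β s ∈ K s) ∧ ∀ s, d s (β s) + N β s = α s

/-- QIS: `Φ : (C T, cd) → (C T', D)` is a quasi-isomorphism. -/
def Stmt_QIS : Prop :=
  ∀ (p : ℕ) [Fact p.Prime] (V : Type) [LinearOrder V] [Finite V] (B : Type) (R : Type u)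
    [CommRing B] [CommRing R] [Algebra B R] [CharP R p] (F : Frob p V B R) (Λ : Lat V B R)
    (T T' : Finset V → R), (∀ w : Fin p → Ω[R⁄B], ExteriorAlgebra.ιMulti R p w = 0) →
    Λ.Good F T → Λ.Good F T' → Λ.Cartier F T T' →
    (∀ x ∈ Λ.C T, cd x = 0 → ∀ y ∈ Λ.C T', F.Phi x = DD B R y → ∃ x' ∈ Λ.C T, x = cd x') ∧
    (∀ y ∈ Λ.C T', DD B R y = 0 → ∃ x ∈ Λ.C T, cd x = 0 ∧ ∃ y' ∈ Λ.C T',
      y = F.Phi x + DD B R y')

/-- GRD: components by form degree. -/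
def Stmt_GRD : Prop :=
  (∀ (B : Type) (R : Type u) [CommRing B] [CommRing R] [Algebra B R],
    (∀ i (x : DR B R), dR B R (pr B R i x) = pr B R (i + 1) (dR B R x)) ∧
    (∀ x : DR B R, pr B R 0 (dR B R x) = 0) ∧
    (∀ x : DR B R, ∃ a : R, pr B R 0 x = fn B R a) ∧
    (∀ a : R, pr B R 0 (fn B R a) = fn B R a) ∧
    (∀ a b : R, fn B R a = fn B R b → a = b) ∧
    (∀ i j (x : DR B R), pr B R i (pr B R j x) = if i = j then pr B R j x else 0) ∧
    ∀ n, (∀ w : Fin n → Ω[R⁄B], ExteriorAlgebra.ιMulti R n w = 0) →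
      ∀ x : DR B R, x = ∑ i ∈ Finset.range n, pr B R i x) ∧
  (∀ (V : Type) (B : Type) (R : Type u) [CommRing B] [CommRing R] [Algebra B R] (Λ : Lat V B R)
    (T : Finset V → R) (s : Finset V) (i : ℕ), ∀ x ∈ Λ.K T s, pr B R i x ∈ Λ.K T s) ∧
  (∀ (V : Type) (B : Type) (R : Type u) [CommRing B] [CommRing R] [Algebra B R] (Λ : Lat V B R)
    (T : Finset V → R) (s : Finset V), ∀ x ∈ Λ.K T s, ∃ a ∈ Λ.A s,
      pr B R 0 x = fn B R (T s * a)) ∧
  (∀ (V : Type) (B : Type) (R : Type u) [CommRing B] [CommRing R] [Algebra B R] (Λ : Lat V B R)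
    (T : Finset V → R) (s : Finset V), ∀ a ∈ Λ.A s, fn B R (T s * a) ∈ Λ.K T s)

/-- CNT: counting lemma. `W` is graded by the projections `π i`, `δ` preserves degrees and `d`
raises them by one. -/
def Stmt_CNT : Prop :=
  ∀ (W : Type u) [AddCommGroup W] (n : ℕ) (π : ℕ → W →+ W) (δ d Ψ : W →+ W)
    (U : AddSubgroup W),
    (∀ i j x, π i (π j x) = if i = j then π j x else 0) →
    (∀ x, x = ∑ i ∈ Finset.range n, π i x) →
    (∀ i x, π i (δ x) = δ (π i x)) →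
    (∀ i x, π (i + 1) (d x) = d (π i x)) → (∀ x, π 0 (d x) = 0) →
    (∀ x ∈ U, ∀ i, π i x ∈ U) → (∀ x ∈ U, δ x ∈ U) → (∀ x ∈ U, d x ∈ U) → (∀ x ∈ U, Ψ x ∈ U) →
    (∀ x ∈ U, δ (δ x) = 0) → (∀ x ∈ U, δ (δ x + d x) + d (δ x + d x) = 0) →
    (∀ x ∈ U, δ (Ψ x) + d (Ψ x) = Ψ (δ x)) →
    (∀ x ∈ U, δ x = 0 → ∀ y ∈ U, Ψ x = δ y + d y → ∃ x' ∈ U, x = δ x') →
    (∃ S : Set W, S.Finite ∧ ∀ x ∈ U, δ x = 0 → ∃ g ∈ S, ∃ y ∈ U, x = g + δ y) →
    ∀ z ∈ U, δ z = 0 → π 0 z = z →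
      ∃ x ∈ U, δ x + d x = 0 ∧ ∃ y ∈ U, π 0 y = y ∧ π 0 x = z + δ y

/-- DIB: the conclusion of the cochain part. -/
def Stmt_DIB : Prop :=
  ∀ (p : ℕ) [Fact p.Prime] (V : Type) [LinearOrder V] [Finite V] (B : Type) (R : Type u)
    [CommRing B] [CommRing R] [Algebra B R] [CharP R p] (F : Frob p V B R) (Λ : Lat V B R)
    (T T' : Finset V → R), (∀ w : Fin p → Ω[R⁄B], ExteriorAlgebra.ιMulti R p w = 0) →
    Λ.Good F T → Λ.Good F T' → Λ.Cartier F T T → Λ.Cartier F T T' →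
    (∀ s, s.Nonempty → ∃ a ∈ Λ.A s, T' s = a * T s) →
    (∃ S : Set (Finset V → DR B R), S.Finite ∧ ∀ x ∈ Λ.C T, cd x = 0 →
      ∃ g ∈ S, ∃ y ∈ Λ.C T, x = g + cd y) →
    ∀ z : Finset V → R, z ∅ = 0 → (∀ s, s.Nonempty → ∃ a ∈ Λ.A s, z s = T s * a) → cd z = 0 →
      ∃ z' y : Finset V → R, z' ∅ = 0 ∧ (∀ s, s.Nonempty → ∃ a ∈ Λ.A s, z' s = T' s * a) ∧
        cd z' = 0 ∧ y ∅ = 0 ∧ (∀ s, s.Nonempty → ∃ a ∈ Λ.A s, y s = T s * a) ∧ z = z' + cd y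

end

end Pool.Agent.DBX.DIB
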