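import Pool.Agent.DBX.DIB.Stmts
import Pool.Agent.DBX.Cd

/-!
# DBX, area DIB, module CDI: the Čech differential and the insertion of a new smallest element.
-/

set_option autoImplicit false

namespace Pool.Agent.DBX.DIB

open Pool.Agent.DBX

universe u

namespace CDI_

section

variable {V : Type} [LinearOrder V] {G : Type u} [AddCommGroup G]

theorem cd_insert (β : Finset V → G) (i : V) (s : Finset V) (hi : ∀ j ∈ s, i < j) :
    cd β (insert i s) = β s - cd (fun t => β (insert i t)) s := by
  have his : i ∉ s := fun h => lt_irrefl i (hi i h)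
  rw [cd_apply, cd_apply, Finset.sum_insert his, Finset.erase_insert his]
  have h0 : (insert i s).filter (fun w => w < i) = ∅ := by
    rw [Finset.filter_eq_empty_iff]
    intro w hw
    rcases Finset.mem_insert.mp hw with rfl | hw
    · exact lt_irrefl _
    · exact not_lt.mpr (hi w hw).le
  rw [h0, Finset.card_empty, pow_zero, one_smul, sub_eq_add_neg, ← Finset.sum_neg_distrib]
  congr 1
  refine Finset.sum_congr rfl (fun v hv => ?_)
  have hiv : i < v := hi v hv
  have h1 : (insert i s).filter (fun w => w < v) = insert i (s.filter (fun w => w < v)) := by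
    rw [Finset.filter_insert, if_pos hiv]
  have h2 : i ∉ s.filter (fun w => w < v) := fun h => his (Finset.mem_filter.mp h).1
  rw [h1, Finset.card_insert_of_notMem h2, pow_succ, Finset.erase_insert_of_ne hiv.ne]
  simp

end

end CDI_

theorem cdi_proof : Stmt_CDI.{u} :=
  ⟨fun _ _ _ _ β i s h => CDI_.cd_insert β i s h,
    fun _ _ _ _ β => cd_empty β,
    fun _ _ _ _ β γ => cd_add β γ,
    fun _ _ _ _ β => cd_cd β,
    fun _ _ _ _ _ _ f β s => congrFun (cd_map f β) s⟩

end Pool.Agent.DBX.DIB
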