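import Pool.Agent.DBX.Cd

set_option autoImplicit false

/-!
The differential of the diagonal `∑_{m ∈ u} G(u_{≤ m}, u_{≥ m})` of a function of two finite sets.
-/

namespace Pool.Agent.DBX.DIB

section Cup

variable {V : Type*} [LinearOrder V] {M : Type*} [AddCommGroup M]

/-- the diagonal of a function of two finite sets -/
def diag (G : Finset V → Finset V → M) (u : Finset V) : M :=
  ∑ m ∈ u, G (u.filter (fun w => w ≤ m)) (u.filter (fun w => m ≤ w))

/-- the telescoping sum -/
theorem telescope (G : Finset V → Finset V → M) (t : Finset V) :
    ∀ A : Finset V, ∑ m ∈ t, ((-1 : ℤ) ^ (t.filter (fun w => w < m)).card) •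
      (G (A ∪ t.filter (fun w => w < m)) (t.filter (fun w => m ≤ w)) +
        G (A ∪ t.filter (fun w => w ≤ m)) (t.filter (fun w => m < w))) =
      G A t - ((-1 : ℤ) ^ t.card) • G (A ∪ t) ∅ := by
  induction t using Finset.induction_on_min with
  | empty =>
    intro A
    simp
  | insert a s ha ih =>
    intro A
    have hns : a ∉ s := fun h => lt_irrefl _ (ha a h)
    rw [Finset.sum_insert hns]
    have e1 : (insert a s).filter (fun w => w < a) = ∅ := by
      ext w
      simp only [Finset.mem_filter, Finset.mem_insert, Finset.notMem_empty, iff_false, not_and]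
      rintro (h | h) h2
      · exact lt_irrefl _ (h ▸ h2)
      · exact lt_asymm h2 (ha w h)
    have e2 : (insert a s).filter (fun w => a ≤ w) = insert a s := by
      apply Finset.filter_true_of_mem
      intro w hw
      rcases Finset.mem_insert.mp hw with h | h
      · exact h.ge
      · exact (ha w h).le
    have e3 : (insert a s).filter (fun w => w ≤ a) = {a} := by
      ext w
      simp only [Finset.mem_filter, Finset.mem_insert, Finset.mem_singleton]
      constructor
      · rintro ⟨h | h, h2⟩
        · exact h
        · exact absurd (ha w h) (not_lt.mpr h2)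
      · intro h
        exact ⟨Or.inl h, h.le⟩
    have e4 : (insert a s).filter (fun w => a < w) = s := by
      ext w
      simp only [Finset.mem_filter, Finset.mem_insert]
      constructor
      · rintro ⟨h | h, h2⟩
        · exact absurd h2 (h ▸ lt_irrefl _)
        · exact h
      · intro h
        exact ⟨Or.inr h, ha w h⟩
    have e5 : ∀ m ∈ s, (insert a s).filter (fun w => w < m) = insert a (s.filter (fun w => w < m)) := by
      intro m hm
      rw [Finset.filter_insert, if_pos (ha m hm)]
    have e6 : ∀ m ∈ s, (insert a s).filter (fun w => w ≤ m) = insert a (s.filter (fun w => w ≤ m)) := by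
      intro m hm
      rw [Finset.filter_insert, if_pos (ha m hm).le]
    have e7 : ∀ m ∈ s, (insert a s).filter (fun w => m ≤ w) = s.filter (fun w => m ≤ w) := by
      intro m hm
      rw [Finset.filter_insert, if_neg (not_le.mpr (ha m hm))]
    have e8 : ∀ m ∈ s, (insert a s).filter (fun w => m < w) = s.filter (fun w => m < w) := by
      intro m hm
      rw [Finset.filter_insert, if_neg (not_lt.mpr (ha m hm).le)]
    have e9 : ∀ m ∈ s, ((-1 : ℤ) ^ ((insert a s).filter (fun w => w < m)).card) •
        (G (A ∪ (insert a s).filter (fun w => w < m)) ((insert a s).filter (fun w => m ≤ w)) +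
        G (A ∪ (insert a s).filter (fun w => w ≤ m)) ((insert a s).filter (fun w => m < w))) =
        - (((-1 : ℤ) ^ (s.filter (fun w => w < m)).card) •
          (G ((A ∪ {a}) ∪ s.filter (fun w => w < m)) (s.filter (fun w => m ≤ w)) +
        G ((A ∪ {a}) ∪ s.filter (fun w => w ≤ m)) (s.filter (fun w => m < w)))) := by
      intro m hm
      rw [e5 m hm, e6 m hm, e7 m hm, e8 m hm, Finset.card_insert_of_notMem (by simp [hns]), pow_succ,
        mul_neg_one, neg_smul, Finset.insert_eq, Finset.insert_eq, Finset.union_assoc,
        Finset.union_assoc]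
    rw [Finset.sum_congr rfl e9, Finset.sum_neg_distrib, ih (A ∪ {a}), e1, e2, e3, e4,
      Finset.card_empty, pow_zero, one_smul, Finset.union_empty,
      Finset.card_insert_of_notMem hns, pow_succ, mul_neg_one, neg_smul, Finset.insert_eq,
      Finset.union_assoc]
    abel

theorem filter_erase' (u : Finset V) (x : V) (P : V → Prop) [DecidablePred P] :
    (u.erase x).filter P = (u.filter P).erase x := by
  ext w
  simp only [Finset.mem_filter, Finset.mem_erase]
  tauto

theorem cup_cd (G : Finset V → Finset V → M) (u : Finset V) :
    cd (diag G) u =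
      ∑ m ∈ u, (cd (fun r => G r (u.filter (fun w => m ≤ w))) (u.filter (fun w => w ≤ m)) +
        ((-1 : ℤ) ^ (u.filter (fun w => w < m)).card) •
          cd (G (u.filter (fun w => w ≤ m))) (u.filter (fun w => m ≤ w))) -
      G ∅ u + ((-1 : ℤ) ^ u.card) • G u ∅ := by
  have h0 := telescope G u ∅
  simp only [Finset.empty_union] at h0
  have h1 : cd (diag G) u = ∑ m ∈ u, ∑ x ∈ u.erase m,
      sg u x • G ((u.filter (fun w => w ≤ m)).erase x) ((u.filter (fun w => m ≤ w)).erase x) := by
    rw [cd_sg]
    have : ∀ x ∈ u, sg u x • diag G (u.erase x) = ∑ m ∈ u.erase x, sg u x •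
        G ((u.filter (fun w => w ≤ m)).erase x) ((u.filter (fun w => m ≤ w)).erase x) := by
      intro x _
      unfold diag
      rw [Finset.smul_sum]
      apply Finset.sum_congr rfl
      intro m _
      rw [filter_erase', filter_erase']
    rw [Finset.sum_congr rfl this]
    apply Finset.sum_comm'
    intro x m
    simp only [Finset.mem_erase]
    constructor
    · rintro ⟨a, b, c⟩
      exact ⟨⟨fun h => b h.symm, a⟩, c⟩
    · rintro ⟨⟨a, b⟩, c⟩
      exact ⟨b, fun h => a h.symm, c⟩
  have h2 : ∀ m ∈ u, (∑ x ∈ u.erase m,
      sg u x • G ((u.filter (fun w => w ≤ m)).erase x) ((u.filter (fun w => m ≤ w)).erase x)) =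
      (cd (fun r => G r (u.filter (fun w => m ≤ w))) (u.filter (fun w => w ≤ m)) +
        ((-1 : ℤ) ^ (u.filter (fun w => w < m)).card) •
          cd (G (u.filter (fun w => w ≤ m))) (u.filter (fun w => m ≤ w))) -
      ((-1 : ℤ) ^ (u.filter (fun w => w < m)).card) •
        (G (u.filter (fun w => w < m)) (u.filter (fun w => m ≤ w)) +
        G (u.filter (fun w => w ≤ m)) (u.filter (fun w => m < w))) := by
    intro m hm
    have a1 : (u.erase m) = u.filter (fun w => w < m) ∪ u.filter (fun w => m < w) := by
      ext w
      simp only [Finset.mem_erase, Finset.mem_union, Finset.mem_filter]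
      constructor
      · rintro ⟨a, b⟩
        rcases lt_or_gt_of_ne a with h | h
        · exact Or.inl ⟨b, h⟩
        · exact Or.inr ⟨b, h⟩
      · rintro (⟨a, b⟩ | ⟨a, b⟩)
        · exact ⟨b.ne, a⟩
        · exact ⟨b.ne', a⟩
    have a2 : Disjoint (u.filter (fun w => w < m)) (u.filter (fun w => m < w)) := by
      rw [Finset.disjoint_left]
      intro w h1 h2
      exact lt_asymm (Finset.mem_filter.mp h1).2 (Finset.mem_filter.mp h2).2
    rw [a1, Finset.sum_union a2]
    have a3 : u.filter (fun w => w ≤ m) = insert m (u.filter (fun w => w < m)) := by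
      ext w
      simp only [Finset.mem_insert, Finset.mem_filter]
      constructor
      · rintro ⟨a, b⟩
        rcases b.lt_or_eq with h | h
        · exact Or.inr ⟨a, h⟩
        · exact Or.inl h
      · rintro (h | ⟨a, b⟩)
        · exact ⟨h ▸ hm, h.le⟩
        · exact ⟨a, b.le⟩
    have a4 : u.filter (fun w => m ≤ w) = insert m (u.filter (fun w => m < w)) := by
      ext w
      simp only [Finset.mem_insert, Finset.mem_filter]
      constructor
      · rintro ⟨a, b⟩
        rcases b.lt_or_eq with h | h
        · exact Or.inr ⟨a, h⟩
        · exact Or.inl h.symm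
      · rintro (h | ⟨a, b⟩)
        · exact ⟨h ▸ hm, h.ge⟩
        · exact ⟨a, b.le⟩
    have a5 : m ∉ u.filter (fun w => w < m) := by simp
    have a6 : m ∉ u.filter (fun w => m < w) := by simp
    -- front
    have b1 : cd (fun r => G r (u.filter (fun w => m ≤ w))) (u.filter (fun w => w ≤ m)) =
        ((-1 : ℤ) ^ (u.filter (fun w => w < m)).card) •
          G (u.filter (fun w => w < m)) (u.filter (fun w => m ≤ w)) +
        ∑ x ∈ u.filter (fun w => w < m), sg u x •
          G ((u.filter (fun w => w ≤ m)).erase x) ((u.filter (fun w => m ≤ w)).erase x) := by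
      rw [cd_sg]
      conv_lhs => rw [a3, Finset.sum_insert a5]
      congr 1
      · rw [Finset.erase_insert a5]
        congr 1
        unfold sg
        congr 2
        ext w
        simp only [Finset.mem_filter, Finset.mem_insert]
        constructor
        · rintro ⟨h | h, h2⟩
          · exact absurd h2 (h ▸ lt_irrefl _)
          · exact h
        · rintro ⟨h, h2⟩
          exact ⟨Or.inr ⟨h, h2⟩, h2⟩
      · apply Finset.sum_congr rfl
        intro x hx
        have hx' := Finset.mem_filter.mp hx
        rw [← a3]
        congr 1
        · unfold sg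
          congr 2
          ext w
          simp only [Finset.mem_filter]
          constructor
          · rintro ⟨⟨h, _⟩, h2⟩
            exact ⟨h, h2⟩
          · rintro ⟨h, h2⟩
            exact ⟨⟨h, (h2.trans hx'.2).le⟩, h2⟩
        · rw [Finset.erase_eq_of_notMem (s := u.filter (fun w => m ≤ w))]
          intro h
          exact absurd hx'.2 (not_lt.mpr (Finset.mem_filter.mp h).2)
    have b2 : ((-1 : ℤ) ^ (u.filter (fun w => w < m)).card) •
        cd (G (u.filter (fun w => w ≤ m))) (u.filter (fun w => m ≤ w)) =
        ((-1 : ℤ) ^ (u.filter (fun w => w < m)).card) •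
          G (u.filter (fun w => w ≤ m)) (u.filter (fun w => m < w)) +
        ∑ x ∈ u.filter (fun w => m < w), sg u x •
          G ((u.filter (fun w => w ≤ m)).erase x) ((u.filter (fun w => m ≤ w)).erase x) := by
      rw [cd_sg]
      conv_lhs => rw [a4, Finset.sum_insert a6, smul_add]
      congr 1
      · rw [Finset.erase_insert a6]
        congr 1
        have : sg (insert m (u.filter (fun w => m < w))) m = 1 := by
          unfold sg
          rw [Finset.filter_eq_empty_iff.mpr]
          · simp
          · intro w hw h2
            rcases Finset.mem_insert.mp hw with h | h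
            · exact lt_irrefl _ (h ▸ h2)
            · exact lt_asymm h2 (Finset.mem_filter.mp h).2
        rw [this, one_smul]
      · rw [Finset.smul_sum]
        apply Finset.sum_congr rfl
        intro x hx
        have hx' := Finset.mem_filter.mp hx
        rw [← a4, smul_smul]
        congr 1
        · unfold sg
          rw [← pow_add]
          congr 1
          rw [← Finset.card_union_of_disjoint]
          · congr 1
            ext w
            simp only [Finset.mem_filter, Finset.mem_union]
            constructor
            · rintro (⟨h, h2⟩ | ⟨⟨h, h2⟩, h3⟩)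
              · exact ⟨h, h2.trans hx'.2⟩
              · exact ⟨h, h3⟩
            · rintro ⟨h, h2⟩
              rcases lt_or_ge w m with h3 | h3
              · exact Or.inl ⟨h, h3⟩
              · exact Or.inr ⟨⟨h, h3⟩, h2⟩
          · rw [Finset.disjoint_left]
            intro w h1 h2
            have h3 := (Finset.mem_filter.mp h1).2
            have h4 := (Finset.mem_filter.mp (Finset.mem_filter.mp h2).1).2
            exact absurd h3 (not_lt.mpr h4)
        · rw [Finset.erase_eq_of_notMem (s := u.filter (fun w => w ≤ m))]
          intro h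
          exact absurd hx'.2 (not_lt.mpr (Finset.mem_filter.mp h).2)
    rw [b1, b2, smul_add]
    abel
  rw [h1, Finset.sum_congr rfl h2, Finset.sum_sub_distrib, h0]
  abel

end Cup

end Pool.Agent.DBX.DIB
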