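import Pool.Agent.DBE.Diff
import Pool.Agent.DBX.Defs

/-!
# DBX, area DIB: Deligne-Illusie, the cochain part (area DI-B of DBX).  Definitions.

`R` is a commutative algebra over `B` of characteristic `p`, `V` a linearly ordered set (of
charts), `θ v : Ω → Ω` and `h v w : Ω → R` are the semilinear maps given by local Frobenius lifts.
Cochains are functions `Finset V → DR B R`.
-/

set_option autoImplicit false

namespace Pool.Agent.DBX.DIB

open KaehlerDifferential Pool.Agent.DBE Pool.Agent.DBX

universe u v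

noncomputable section

/-- the inclusion of one-forms -/
abbrev one (B : Type u) (R : Type v) [CommRing B] [CommRing R] [Algebra B R] (w : Ω[R⁄B]) :
    DR B R := ExteriorAlgebra.ι R w

/-- the sign `(-1)^(card s - 1)` -/
def sg {V : Type} (s : Finset V) : ℤ := (-1) ^ (s.card + 1)

section total

variable {V : Type} [LinearOrder V] (B : Type u) (R : Type v) [CommRing B] [CommRing R]
  [Algebra B R]

/-- the total differential -/
def DD (β : Finset V → DR B R) (s : Finset V) : DR B R := cd β s + sg s • dR B R (β s)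

end total

/-- The maps `θ v = (dφ_v)/p` and `h v w = (φ_w - φ_v)/p` attached to Frobenius lifts `φ_v`. -/
structure Frob (p : ℕ) (V : Type) (B : Type u) (R : Type v) [CommRing B] [CommRing R]
    [Algebra B R] where
  /-- `θ v` -/
  θ : V → Ω[R⁄B] →+ Ω[R⁄B]
  /-- `h v w` -/
  h : V → V → Ω[R⁄B] →+ R
  θ_smul : ∀ v (a : R) w, θ v (a • w) = a ^ p • θ v w
  h_smul : ∀ v v' (a : R) w, h v v' (a • w) = a ^ p * h v v' w
  θ_closed : ∀ v w, dR B R (one B R (θ v w)) = 0
  h_add : ∀ v v' v'' w, h v v' w + h v' v'' w = h v v'' w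
  h_d : ∀ v v' w, D B R (h v v' w) = θ v' w - θ v w

namespace Frob

variable {p : ℕ} {V : Type} [LinearOrder V] {B : Type u} {R : Type v} [CommRing B] [CommRing R]
  [Algebra B R]

/-- `h i (min s)`, and `0` if `s` is empty -/
def hm (F : Frob p V B R) (i : V) (s : Finset V) (w : Ω[R⁄B]) : R :=
  if hs : s.Nonempty then F.h i (s.min' hs) w else 0

/-- the operator `L_w`:
`(L_w β)(v) = (-1)^(card v - 1) θ_{v0}(w) β(v) + h_{v0 v1}(w) β(v \ v0)`, `v0 < v1` the two smallest
elements of `v` -/
def L (F : Frob p V B R) (w : Ω[R⁄B]) (β : Finset V → DR B R) (s : Finset V) : DR B R :=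
  if hs : s.Nonempty then
    sg s • (one B R (F.θ (s.min' hs) w) * β s) +
      fn B R (F.hm (s.min' hs) (s.erase (s.min' hs)) w) * β (s.erase (s.min' hs))
  else 0

end Frob

section twisted

variable (p : ℕ) (V : Type) (B : Type u) (R : Type v) [CommRing B] [CommRing R] [Algebra B R]

/-- the cochains, as a module over `R` by the Frobenius endomorphism -/
def FN : Type v := Finset V → DR B R

instance : AddCommGroup (FN V B R) := inferInstanceAs (AddCommGroup (Finset V → DR B R))

end twisted

section twistmod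

variable (p : ℕ) [Fact p.Prime] (V : Type) (B : Type u) (R : Type v) [CommRing B] [CommRing R]
  [Algebra B R] [CharP R p]

/-- `a • β = a ^ p β` -/
abbrev frMod : Module R (FN V B R) :=
  letI : Module R (FN V B R) := inferInstanceAs (Module R (Finset V → DR B R))
  Module.compHom (FN V B R) (frobenius R p)

end twistmod

namespace Frob

variable {p : ℕ} [Fact p.Prime] {V : Type} [LinearOrder V] {B : Type u} {R : Type v} [CommRing B]
  [CommRing R] [Algebra B R] [CharP R p]

omit [LinearOrder V] in
theorem smul_def' (a : R) (β : FN V B R) (s : Finset V) :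
    letI := frMod p V B R
    (a • β : FN V B R) s = fn B R (a ^ p) * β s := by
  change (frobenius R p a) • (β s) = _
  rw [Algebra.smul_def, frobenius_def]

/-- `L_w` as a linear map of the twisted module of cochains -/
def Llin (F : Frob p V B R) (w : Ω[R⁄B]) :
    letI := frMod p V B R
    FN V B R →ₗ[R] FN V B R :=
  letI := frMod p V B R
  { toFun := F.L w
    map_add' := by
      intro β γ
      funext s
      change F.L w (fun s => β s + γ s) s = F.L w β s + F.L w γ s
      unfold L
      split_ifs with hs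
      · simp only [mul_add, smul_add]
        abel
      · simp
    map_smul' := by
      intro a β
      funext s
      have e : (a • β : FN V B R) = fun s => fn B R (a ^ p) * β s := by
        funext t
        exact smul_def' a β t
      refine Eq.trans ?_ (smul_def' a (F.L w β) s).symm
      change F.L w (a • β : FN V B R) s = _
      rw [e]
      unfold L
      split_ifs with hs
      · rw [mul_add, mul_smul_comm]
        congr 1
        · rw [← mul_assoc, ← mul_assoc, fn_comm]
        · rw [← mul_assoc, ← mul_assoc, fn_comm]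
      · rw [mul_zero] }

/-- `w ↦ L_w`, linear for the twisted module structure -/
def LL (F : Frob p V B R) :
    letI := frMod p V B R
    Ω[R⁄B] →ₗ[R] Module.End R (FN V B R) :=
  letI := frMod p V B R
  { toFun := F.Llin
    map_add' := by
      intro w w'
      apply LinearMap.ext
      intro β
      funext s
      change F.L (w + w') β s = F.L w β s + F.L w' β s
      unfold L hm
      split_ifs with hs ht
      · simp only [map_add, add_mul, smul_add]
        abel
      · simp only [map_add, add_mul, smul_add, map_zero, zero_mul]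
        abel
      · simp
    map_smul' := by
      intro a w
      apply LinearMap.ext
      intro β
      funext s
      refine Eq.trans ?_ (smul_def' a (F.L w β) s).symm
      change F.L (a • w) β s = _
      have e : ∀ v, one B R (F.θ v (a • w)) = fn B R (a ^ p) * one B R (F.θ v w) := by
        intro v
        rw [F.θ_smul, one, map_smul, Algebra.smul_def]
      unfold L hm
      split_ifs with hs ht
      · rw [e, F.h_smul, mul_add, mul_smul_comm, mul_assoc, map_mul, mul_assoc]
      · rw [e, mul_add, mul_smul_comm, mul_assoc, map_zero, zero_mul, mul_zero]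
      · rw [mul_zero] }

/-- the cochain which is `1` on vertices and `0` otherwise -/
def uno (V : Type) (B : Type u) (R : Type v) [CommRing B] [CommRing R] [Algebra B R] : FN V B R :=
  fun s => if s.card = 1 then 1 else 0

/-- `(w_1, …, w_i) ↦ L_{w_1} ⋯ L_{w_i} 1` -/
def mult (F : Frob p V B R) (i : ℕ) :
    letI := frMod p V B R
    MultilinearMap R (fun _ : Fin i => Ω[R⁄B]) (FN V B R) :=
  letI := frMod p V B R
  (LinearMap.applyₗ (R := R) (uno V B R)).compMultilinearMap
    ((MultilinearMap.mkPiAlgebraFin R i (Module.End R (FN V B R))).compLinearMap fun _ => F.LL)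

/-- a natural number `c` with `c * i! = 1` modulo `p`, if `i < p` -/
def cf (p i : ℕ) : ℕ := ((i.factorial : ZMod p)⁻¹).val

/-- `(1/i!) ∑_σ sgn σ L_{w_σ1} ⋯ L_{w_σi} 1` -/
def altm (F : Frob p V B R) (i : ℕ) :
    letI := frMod p V B R
    Ω[R⁄B] [⋀^Fin i]→ₗ[R] (FN V B R) :=
  letI := frMod p V B R
  cf p i • MultilinearMap.alternatization (F.mult i)

/-- the map `φ` from forms to cochains -/
def phi (F : Frob p V B R) : DR B R →+ (Finset V → DR B R) :=
  letI := frMod p V B R
  (ExteriorAlgebra.liftAlternating (R := R) (M := Ω[R⁄B]) (N := FN V B R) F.altm).toAddMonoidHom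

/-- the map from Čech cochains of forms to total cochains:
`Φ(w)(u) = ∑_{m ∈ u} φ(w(u_{≤ m}))(u_{≥ m})` -/
def Phi (F : Frob p V B R) (w : Finset V → DR B R) (u : Finset V) : DR B R :=
  ∑ m ∈ u, F.phi (w (u.filter (· ≤ m))) (u.filter (m ≤ ·))

/-- data of `Λθ_v` -/
def lamData (F : Frob p V B R) (v : V) : DRData B R (DR B R) where
  φ := (fn B R).comp (frobenius R p)
  δ := ((ExteriorAlgebra.ι R (M := Ω[R⁄B])).toAddMonoidHom.comp (F.θ v)).comp
    (D B R : R →ₗ[B] Ω[R⁄B]).toAddMonoidHom
  comm a x := fn_comm _ _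
  base b := by
    change one B R (F.θ v (D B R (algebraMap B R b))) = 0
    rw [Derivation.map_algebraMap, map_zero, one, map_zero]
  leib a b := by
    change one B R (F.θ v (D B R (a * b))) = fn B R (frobenius R p a) * one B R (F.θ v (D B R b)) +
      fn B R (frobenius R p b) * one B R (F.θ v (D B R a))
    rw [Derivation.leibniz, map_add, F.θ_smul, F.θ_smul, one, map_add, map_smul, map_smul,
      Algebra.smul_def, Algebra.smul_def, frobenius_def, frobenius_def]
  sq a := ExteriorAlgebra.ι_sq_zero _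

/-- the exterior algebra of `θ v`: the ring homomorphism with `a ↦ a ^ p`, `w ↦ θ v w` -/
def Lam (F : Frob p V B R) (v : V) : DR B R →+* DR B R := (F.lamData v).hom

end Frob

/-! ## Lattices -/

/-- Lattices: subrings `A s` of `R` and subgroups `W s` of the module of one-forms. -/
structure Lat (V : Type) (B : Type u) (R : Type v) [CommRing B] [CommRing R] [Algebra B R] where
  /-- functions -/
  A : Finset V → Subring R
  /-- logarithmic one-forms -/
  W : Finset V → AddSubgroup (Ω[R⁄B])

namespace Lat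

variable {V : Type} {B : Type u} {R : Type v} [CommRing B] [CommRing R] [Algebra B R]

/-- logarithmic forms of all degrees -/
def M (Λ : Lat V B R) (s : Finset V) : Subring (DR B R) :=
  Subring.closure (fn B R '' (Λ.A s) ∪ one B R '' (Λ.W s))

/-- `T s` times the logarithmic forms -/
def K (Λ : Lat V B R) (T : Finset V → R) (s : Finset V) : AddSubgroup (DR B R) :=
  (Λ.M s).toAddSubgroup.map (AddMonoidHom.mulLeft (fn B R (T s)))

/-- non-augmented cochains with values in `K T` -/
def C (Λ : Lat V B R) (T : Finset V → R) : AddSubgroup (Finset V → DR B R) where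
  carrier := {x | x ∅ = 0 ∧ ∀ s, s.Nonempty → x s ∈ Λ.K T s}
  zero_mem' := ⟨rfl, fun s _ => zero_mem _⟩
  add_mem' := by
    rintro x y ⟨h1, h2⟩ ⟨h3, h4⟩
    refine ⟨?_, fun s hs => add_mem (h2 s hs) (h4 s hs)⟩
    change x ∅ + y ∅ = 0
    rw [h1, h3, add_zero]
  neg_mem' := by
    rintro x ⟨h1, h2⟩
    refine ⟨?_, fun s hs => neg_mem (h2 s hs)⟩
    change - x ∅ = 0
    rw [h1, neg_zero]

/-- compatibility of lattices and Frobenius data -/
structure Good {p : ℕ} [Fact p.Prime] [LinearOrder V] [CharP R p] (Λ : Lat V B R)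
    (F : Frob p V B R) (T : Finset V → R) : Prop where
  A_mono : ∀ s t, s.Nonempty → s ⊆ t → Λ.A s ≤ Λ.A t
  W_mono : ∀ s t, s.Nonempty → s ⊆ t → Λ.W s ≤ Λ.W t
  W_smul : ∀ s, s.Nonempty → ∀ a ∈ Λ.A s, ∀ w ∈ Λ.W s, a • w ∈ Λ.W s
  D_mem : ∀ s, s.Nonempty → ∀ a ∈ Λ.A s, D B R a ∈ Λ.W s
  dW : ∀ s, s.Nonempty → ∀ w ∈ Λ.W s, dR B R (one B R w) ∈ Λ.M s
  θ_mem : ∀ s, ∀ v ∈ s, ∀ w ∈ Λ.W s, F.θ v w ∈ Λ.W s
  h_mem : ∀ s, ∀ v ∈ s, ∀ v' ∈ s, ∀ w ∈ Λ.W s, F.h v v' w ∈ Λ.A s
  T_mono : ∀ s t, s.Nonempty → s ⊆ t → ∃ a ∈ Λ.A t, T s = a * T t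
  T_d : ∀ s, s.Nonempty → ∃ w ∈ Λ.W s, D B R (T s) = T s • w

/-- Cartier: `Λθ_v : (K T s, 0) → (K T' s, d)` is a quasi-isomorphism, for `v ∈ s`. -/
structure Cartier {p : ℕ} [Fact p.Prime] [LinearOrder V] [CharP R p] (Λ : Lat V B R)
    (F : Frob p V B R) (T T' : Finset V → R) : Prop where
  T_pow : ∀ s, s.Nonempty → ∃ a ∈ Λ.A s, T s ^ p = a * T' s
  inj : ∀ s, ∀ v ∈ s, ∀ x ∈ Λ.K T s, ∀ y ∈ Λ.K T' s, F.Lam v x = dR B R y → x = 0
  surj : ∀ s, ∀ v ∈ s, ∀ y ∈ Λ.K T' s, dR B R y = 0 →
    ∃ x ∈ Λ.K T s, ∃ y' ∈ Λ.K T' s, y = F.Lam v x + dR B R y'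

end Lat

/-- component of degree `i` -/
def pr (B : Type u) (R : Type v) [CommRing B] [CommRing R] [Algebra B R] (i : ℕ) :
    DR B R →+ DR B R :=
  (GradedRing.proj (fun i : ℕ => ⋀[R]^i (Ω[R⁄B])) i)

end

end Pool.Agent.DBX.DIB
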