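import Pool.Agent.DBX.DIB.Cup

set_option autoImplicit false

/-!
The total differential `D x s = cd x s + (-1)^(card s - 1) d (x s)`, the product of cochains with
values in a differential graded ring, the Leibniz rule, and the product with a family of cocycles.
-/

namespace Pool.Agent.DBX.DIB

section Diff

variable {V : Type*} [LinearOrder V] {E : Type*} [AddCommGroup E]

/-- the total differential -/
def Dt (d : E →+ E) : (Finset V → E) →+ (Finset V → E) where
  toFun x := fun s => cd x s + ((-1 : ℤ) ^ (s.card + 1)) • d (x s)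
  map_zero' := by
    funext s
    simp [cd_zero]
  map_add' x y := by
    funext s
    simp only [cd_add, Pi.add_apply, map_add, smul_add]
    abel

theorem Dt_apply (d : E →+ E) (x : Finset V → E) (s : Finset V) :
    Dt d x s = cd x s + ((-1 : ℤ) ^ (s.card + 1)) • d (x s) := rfl

theorem Dt_Dt (d : E →+ E) (hd : ∀ x, d (d x) = 0) (x : Finset V → E) :
    Dt d (Dt d x) = 0 := by
  funext s
  have e : Dt d x = cd x + fun t => ((-1 : ℤ) ^ (t.card + 1)) • d (x t) := rfl
  rw [Dt_apply, e, cd_add]
  have h1 : cd (fun t : Finset V => ((-1 : ℤ) ^ (t.card + 1)) • d (x t)) s =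
      - (((-1 : ℤ) ^ (s.card + 1)) • d (cd x s)) := by
    rw [cd_sg, cd_sg, map_sum, Finset.smul_sum, ← Finset.sum_neg_distrib]
    apply Finset.sum_congr rfl
    intro v hv
    rw [map_zsmul, smul_smul, smul_smul, ← neg_smul]
    congr 1
    have h2 := Finset.card_erase_add_one hv
    rw [h2, pow_succ]
    ring
  have h3 : (cd (cd x) + cd fun t : Finset V => ((-1 : ℤ) ^ (t.card + 1)) • d (x t)) s =
      - (((-1 : ℤ) ^ (s.card + 1)) • d (cd x s)) := by
    rw [cd_cd, zero_add, h1]
  rw [h3]
  show -((-1 : ℤ) ^ (s.card + 1) • d (cd x s)) + (-1 : ℤ) ^ (s.card + 1) •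
    d (cd x s + ((-1 : ℤ) ^ (s.card + 1)) • d (x s)) = 0
  rw [map_add, map_zsmul, hd, smul_zero, add_zero, neg_add_cancel]

end Diff

section Fronts

variable {V : Type*} [LinearOrder V]

theorem card_front_back {u : Finset V} {m : V} (hm : m ∈ u) :
    (u.filter (fun w => w ≤ m)).card + (u.filter (fun w => m ≤ w)).card = u.card + 1 := by
  have h1 : (u.filter (fun w => w ≤ m)) ∪ (u.filter (fun w => m ≤ w)) = u := by
    ext w
    simp only [Finset.mem_union, Finset.mem_filter]
    constructor
    · rintro (h | h) <;> exact h.1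
    · intro h
      rcases le_total w m with h2 | h2
      · exact Or.inl ⟨h, h2⟩
      · exact Or.inr ⟨h, h2⟩
  have h2 : (u.filter (fun w => w ≤ m)) ∩ (u.filter (fun w => m ≤ w)) = {m} := by
    ext w
    simp only [Finset.mem_inter, Finset.mem_filter, Finset.mem_singleton]
    constructor
    · rintro ⟨⟨_, a⟩, _, b⟩
      exact le_antisymm a b
    · rintro rfl
      exact ⟨⟨hm, le_rfl⟩, hm, le_rfl⟩
  rw [← Finset.card_union_add_card_inter, h1, h2, Finset.card_singleton]

theorem card_front_lt {u : Finset V} {m : V} (hm : m ∈ u) :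
    (u.filter (fun w => w < m)).card + 1 = (u.filter (fun w => w ≤ m)).card := by
  have a3 : u.filter (fun w => w ≤ m) = insert m (u.filter (fun w => w < m)) := by
    ext w
    simp only [Finset.mem_insert, Finset.mem_filter]
    constructor
    · rintro ⟨a, b⟩
      rcases b.lt_or_eq with h | h
      · exact Or.inr ⟨a, h⟩
      · exact Or.inl h
    · rintro (h | ⟨a, b⟩)
      · exact ⟨h ▸ hm, h.le⟩
      · exact ⟨a, b.le⟩
  rw [a3, Finset.card_insert_of_notMem (by simp)]

theorem sign_front {u : Finset V} {m : V} (hm : m ∈ u) :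
    ((-1 : ℤ) ^ (u.filter (fun w => w < m)).card) =
      (-1 : ℤ) ^ ((u.filter (fun w => w ≤ m)).card + 1) := by
  rw [← card_front_lt hm, pow_succ, pow_succ]
  ring

theorem sign_total {u : Finset V} {m : V} (hm : m ∈ u) :
    ((-1 : ℤ) ^ (u.card + 1)) =
      (-1 : ℤ) ^ ((u.filter (fun w => w ≤ m)).card + 1) *
        (-1 : ℤ) ^ ((u.filter (fun w => m ≤ w)).card + 1) := by
  rw [← pow_add, show (u.filter (fun w => w ≤ m)).card + 1 + ((u.filter (fun w => m ≤ w)).card + 1) =
    ((u.filter (fun w => w ≤ m)).card + (u.filter (fun w => m ≤ w)).card) + 2 by ring,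
    card_front_back hm, pow_add _ (u.card + 1) 2]
  norm_num

end Fronts

section Phi

variable {V : Type*} [LinearOrder V] {E W : Type*} [AddCommGroup E] [AddCommGroup W]

/-- the map of cochains associated with a family of cochains depending additively on a
parameter -/
def PhiMap (φ : W →+ (Finset V → E)) : (Finset V → W) →+ (Finset V → E) where
  toFun x := diag (fun r s => φ (x r) s)
  map_zero' := by
    funext u
    unfold diag
    apply Finset.sum_eq_zero
    intro m _
    show φ 0 _ = 0
    rw [map_zero]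
    rfl
  map_add' x y := by
    funext u
    show diag (fun r s => φ ((x + y) r) s) u =
      diag (fun r s => φ (x r) s) u + diag (fun r s => φ (y r) s) u
    unfold diag
    rw [← Finset.sum_add_distrib]
    apply Finset.sum_congr rfl
    intro m _
    dsimp only
    rw [Pi.add_apply, map_add, Pi.add_apply]

theorem PhiMap_apply (φ : W →+ (Finset V → E)) (x : Finset V → W) (u : Finset V) :
    PhiMap φ x u = ∑ m ∈ u, φ (x (u.filter (fun w => w ≤ m))) (u.filter (fun w => m ≤ w)) := rfl

theorem PhiMap_comm (d : E →+ E) (φ : W →+ (Finset V → E)) (hφ : ∀ w, Dt d (φ w) = 0)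
    (h0 : ∀ w, φ w ∅ = 0) (x : Finset V → W) (hx : x ∅ = 0) :
    Dt d (PhiMap φ x) = PhiMap φ (cd x) := by
  funext u
  rw [Dt_apply]
  have h1 := cup_cd (fun r s => φ (x r) s) u
  have h1' : cd (diag fun r s => φ (x r) s) u = cd (PhiMap φ x) u := rfl
  rw [h1'] at h1
  rw [h1, hx, map_zero, h0, smul_zero, Pi.zero_apply, sub_zero, add_zero, PhiMap_apply,
    PhiMap_apply, map_sum, Finset.smul_sum, ← Finset.sum_add_distrib]
  apply Finset.sum_congr rfl
  intro m hm
  have h2 : cd (fun r => φ (x r) (u.filter (fun w => m ≤ w))) (u.filter (fun w => w ≤ m)) =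
      φ (cd x (u.filter (fun w => w ≤ m))) (u.filter (fun w => m ≤ w)) := by
    rw [cd_sg, cd_sg, map_sum, Finset.sum_apply]
    apply Finset.sum_congr rfl
    intro v _
    rw [map_zsmul]
    rfl
  have h3 : cd (φ (x (u.filter (fun w => w ≤ m)))) (u.filter (fun w => m ≤ w)) =
      - (((-1 : ℤ) ^ ((u.filter (fun w => m ≤ w)).card + 1)) •
        d (φ (x (u.filter (fun w => w ≤ m))) (u.filter (fun w => m ≤ w)))) := by
    have := congrFun (hφ (x (u.filter (fun w => w ≤ m)))) (u.filter (fun w => m ≤ w))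
    rw [Dt_apply] at this
    exact eq_neg_of_add_eq_zero_left this
  rw [h2, h3, sign_front hm, sign_total hm, smul_neg, smul_smul, add_assoc, neg_add_cancel,
    add_zero]

end Phi

section Mul

variable {V : Type*} [LinearOrder V] {E : Type*} [Ring E]

/-- the product of cochains -/
def mulc (ε : E →+* E) (x y : Finset V → E) : Finset V → E :=
  diag (fun r s => (ε^[s.card + 1] (x r)) * y s)

/-- the total grade involution -/
def twc (ε : E →+* E) (x : Finset V → E) : Finset V → E :=
  fun r => ((-1 : ℤ) ^ (r.card + 1)) • ε (x r)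

theorem mulc_apply (ε : E →+* E) (x y : Finset V → E) (u : Finset V) :
    mulc ε x y u = ∑ m ∈ u, (ε^[(u.filter (fun w => m ≤ w)).card + 1]
      (x (u.filter (fun w => w ≤ m)))) * y (u.filter (fun w => m ≤ w)) := rfl

theorem iter_zsmul (ε : E →+* E) (k : ℕ) (c : ℤ) (x : E) : ε^[k] (c • x) = c • ε^[k] x := by
  induction k generalizing x with
  | zero => rfl
  | succ k ih => rw [Function.iterate_succ_apply, Function.iterate_succ_apply, map_zsmul, ih]

theorem iter_add (ε : E →+* E) (k : ℕ) (x y : E) : ε^[k] (x + y) = ε^[k] x + ε^[k] y := by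
  induction k generalizing x y with
  | zero => rfl
  | succ k ih =>
    rw [Function.iterate_succ_apply, Function.iterate_succ_apply, Function.iterate_succ_apply,
      map_add, ih]

theorem iter_zero (ε : E →+* E) (k : ℕ) : ε^[k] (0 : E) = 0 := by
  induction k with
  | zero => rfl
  | succ k ih => rw [Function.iterate_succ_apply, map_zero, ih]

theorem iter_sum (ε : E →+* E) (k : ℕ) {ι : Type*} (s : Finset ι) (f : ι → E) :
    ε^[k] (∑ i ∈ s, f i) = ∑ i ∈ s, ε^[k] (f i) := by
  classical
  induction s using Finset.induction_on with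
  | empty => simp
  | insert a s ha ih => rw [Finset.sum_insert ha, Finset.sum_insert ha, iter_add, ih]

theorem iter_d (ε : E →+* E) (d : E →+ E) (hεd : ∀ x, d (ε x) = - ε (d x)) (k : ℕ) (x : E) :
    d (ε^[k] x) = ((-1 : ℤ) ^ k) • ε^[k] (d x) := by
  induction k generalizing x with
  | zero => simp
  | succ k ih =>
    rw [Function.iterate_succ_apply, ih, hεd, Function.iterate_succ_apply, pow_succ, mul_neg_one]
    have : ε^[k] (-ε (d x)) = (-1 : ℤ) • ε^[k] (ε (d x)) := by
      rw [← iter_zsmul, neg_one_zsmul]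
    rw [this, smul_smul, mul_neg_one]

theorem leibniz (ε : E →+* E) (d : E →+ E) (hε : ∀ x, ε (ε x) = x)
    (hεd : ∀ x, d (ε x) = - ε (d x)) (hd : ∀ x y, d (x * y) = d x * y + ε x * d y)
    (x y : Finset V → E) (hx : x ∅ = 0) (hy : y ∅ = 0) :
    Dt d (mulc ε x y) = mulc ε (Dt d x) y + mulc ε (twc ε x) (Dt d y) := by
  funext u
  rw [Dt_apply]
  have h1 := cup_cd (fun r s => (ε^[s.card + 1] (x r)) * y s) u
  have h1' : cd (diag fun r s => (ε^[s.card + 1] (x r)) * y s) u = cd (mulc ε x y) u := rfl
  rw [h1'] at h1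
  rw [h1, hx, hy, iter_zero, zero_mul, mul_zero, smul_zero, sub_zero, add_zero, Pi.add_apply,
    mulc_apply, mulc_apply, mulc_apply, map_sum, Finset.smul_sum, ← Finset.sum_add_distrib,
    ← Finset.sum_add_distrib]
  apply Finset.sum_congr rfl
  intro m hm
  set r := u.filter (fun w => w ≤ m) with hr
  set s := u.filter (fun w => m ≤ w) with hs
  have h2 : cd (fun r => ε^[s.card + 1] (x r) * y s) r = ε^[s.card + 1] (cd x r) * y s := by
    rw [cd_sg, cd_sg, iter_sum, Finset.sum_mul]
    apply Finset.sum_congr rfl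
    intro v _
    rw [iter_zsmul, smul_mul_assoc]
  have h3 : cd (fun s => ε^[s.card + 1] (x r) * y s) s = ε^[s.card] (x r) * cd y s := by
    rw [cd_sg, cd_sg, Finset.mul_sum]
    apply Finset.sum_congr rfl
    intro v hv
    rw [Finset.card_erase_add_one hv, mul_smul_comm]
  have h4 : ε^[s.card + 1] (twc ε x r) = ((-1 : ℤ) ^ (r.card + 1)) • ε^[s.card] (x r) := by
    show ε^[s.card + 1] (((-1 : ℤ) ^ (r.card + 1)) • ε (x r)) = _
    rw [iter_zsmul, Function.iterate_succ_apply, hε]
  have h5 : ε^[s.card + 1] (Dt d x r) = ε^[s.card + 1] (cd x r) +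
      ((-1 : ℤ) ^ (r.card + 1)) • ε^[s.card + 1] (d (x r)) := by
    rw [Dt_apply, iter_add, iter_zsmul]
  have h6 : ε (ε^[s.card + 1] (x r)) = ε^[s.card] (x r) := by
    rw [← Function.iterate_succ_apply' ε, Function.iterate_succ_apply,
      Function.iterate_succ_apply, hε]
  rw [h2, h3, h4, h5, Dt_apply, hd, iter_d ε d hεd, h6, sign_front hm, sign_total hm, ← hr, ← hs]
  simp only [smul_add, mul_add, add_mul, smul_mul_assoc, mul_smul_comm, smul_smul]
  have e1 : (-1 : ℤ) ^ (r.card + 1) * (-1) ^ (s.card + 1) * (-1) ^ (s.card + 1) =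
      (-1) ^ (r.card + 1) := by
    rw [mul_assoc, ← mul_pow]
    norm_num
  rw [e1, mul_comm ((-1 : ℤ) ^ (s.card + 1)) ((-1 : ℤ) ^ (r.card + 1))]
  abel

end Mul

end Pool.Agent.DBX.DIB
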